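import Pool.Agent.W440.DLMain

set_option autoImplicit false

namespace Pool.Agent.W440.DL

open Cardinal

universe u

variable {R : Type u} [Ring R]

/-- Every small subset of a module of `C` lies in a small submodule belonging to `C`. -/
def LocSmall (C : Cls R) (ν : Cardinal.{u}) : Prop :=
  ∀ M : ModuleCat.{u} R, C M → ∀ Z : Set M, #Z ≤ ν →
    ∃ H : Submodule R M, Z ⊆ H ∧ C (ModuleCat.of R H) ∧ #H ≤ ν

variable {I : Type u} [PartialOrder I]

/-- index type -/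
structure SIdx (S : Sys R I) (P : Cls R) where
  /-- the index -/
  i : I
  /-- the submodule -/
  H : Submodule R (S.X i)
  prop : P (ModuleCat.of R H)

instance SIdx.po (S : Sys R I) (P : Cls R) : PartialOrder (SIdx S P) where
  le p q := p.i ≤ q.i ∧ ∀ h : p.i ≤ q.i, ∀ x ∈ p.H, S.f h x ∈ q.H
  le_refl p := ⟨le_rfl, fun h x hx => by rw [S.map_self]; exact hx⟩
  le_trans p q r := by
    rintro ⟨h1, h2⟩ ⟨h3, h4⟩
    refine ⟨h1.trans h3, fun h x hx => ?_⟩
    rw [← S.map_map h1 h3]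
    exact h4 h3 _ (h2 h1 x hx)
  le_antisymm p q := by
    rcases p with ⟨i, H, hH⟩
    rcases q with ⟨j, H', hH'⟩
    rintro ⟨h1, h2⟩ ⟨h3, h4⟩
    obtain rfl : i = j := le_antisymm h1 h3
    have : H = H' := by
      apply le_antisymm
      · intro x hx
        have := h2 le_rfl x hx
        rwa [S.map_self] at this
      · intro x hx
        have := h4 le_rfl x hx
        rwa [S.map_self] at this
    subst this
    rfl

/-- the refined system -/
def smallSys (S : Sys R I) (P : Cls R) : Sys R (SIdx S P) where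
  X p := ModuleCat.of R p.H
  f {p q} h := (S.f h.1).restrict (h.2 h.1)
  map_self p x := by
    apply Subtype.ext
    exact S.map_self _ _
  map_map {p q r} h1 h2 x := by
    apply Subtype.ext
    exact S.map_map _ _ _

theorem limC_small {C : Cls R} {ν : Cardinal.{u}} (hν : ℵ₀ ≤ ν) (LS : LocSmall C ν)
    {c : Cardinal.{u}} {Y : Type u} [AddCommGroup Y] [Module R Y] (hY : LimC C c Y) :
    ∃ c', LimC (fun M => C M ∧ #M ≤ ν) c' Y := by
  obtain ⟨I, i1, i2, i3, S, hc, hC, g, H⟩ := hY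
  let P : Cls R := fun M => C M ∧ #M ≤ ν
  have hne : Nonempty (SIdx S P) := by
    obtain ⟨i⟩ := i3
    obtain ⟨H, -, h1, h2⟩ := LS (S.X i) (hC i) ∅ (by simp)
    exact ⟨⟨i, H, h1, h2⟩⟩
  have hdir : IsDirectedOrder (SIdx S P) := ⟨by
    rintro p q
    obtain ⟨k, h1, h2⟩ := exists_ge_ge p.i q.i
    obtain ⟨N, hZ, h3, h4⟩ := LS (S.X k) (hC k) (S.f h1 '' p.H ∪ S.f h2 '' q.H) (by
      refine (Cardinal.mk_union_le _ _).trans ?_
      exact Cardinal.add_le_of_le hν (Cardinal.mk_image_le.trans p.prop.2)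
        (Cardinal.mk_image_le.trans q.prop.2))
    refine ⟨⟨k, N, h3, h4⟩, ⟨h1, fun h x hx => ?_⟩, ⟨h2, fun h x hx => ?_⟩⟩
    · exact hZ (Or.inl ⟨x, hx, rfl⟩)
    · exact hZ (Or.inr ⟨x, hx, rfl⟩)⟩
  refine ⟨#(SIdx S P), SIdx S P, inferInstance, hdir, hne, smallSys S P, le_rfl,
    fun p => p.prop, fun p => g p.i ∘ₗ p.H.subtype, ?_, ?_, ?_⟩
  · rintro p q h ⟨x, hx⟩
    exact H.comp h.1 x
  · intro y
    obtain ⟨i, x, rfl⟩ := H.surj y
    obtain ⟨N, hZ, h1, h2⟩ := LS (S.X i) (hC i) {x} (by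
      rw [Cardinal.mk_singleton]; exact Cardinal.one_le_aleph0.trans hν)
    exact ⟨⟨i, N, h1, h2⟩, ⟨x, hZ rfl⟩, rfl⟩
  · rintro p ⟨x, hx⟩ h0
    obtain ⟨j, hij, hj⟩ := H.ker p.i x h0
    obtain ⟨N, hZ, h1, h2⟩ := LS (S.X j) (hC j) (S.f hij '' p.H)
      (Cardinal.mk_image_le.trans p.prop.2)
    refine ⟨⟨j, N, h1, h2⟩, ⟨hij, fun h x hx => hZ ⟨x, hx, rfl⟩⟩, ?_⟩
    apply Subtype.ext
    exact hj

theorem mk_finsupp_le (X : Type u) {μ : Cardinal.{u}} (hμ : ℵ₀ ≤ μ) (hX : #X ≤ μ)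
    (hR : #R ≤ μ) : #(X →₀ R) ≤ μ := by
  classical
  calc #(X →₀ R) ≤ #(Finset (X × R)) :=
        Cardinal.mk_le_of_injective (Finsupp.graph_injective X R)
    _ ≤ #(List (X × R)) := Cardinal.mk_le_of_surjective List.toFinset_surjective
    _ ≤ max ℵ₀ #(X × R) := Cardinal.mk_list_le_max _
    _ ≤ μ := by
      refine max_le hμ ?_
      rw [Cardinal.mk_prod, Cardinal.lift_id, Cardinal.lift_id]
      exact (mul_le_mul' hX hR).trans (Cardinal.mul_eq_self hμ).le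

theorem ltPresented_of_card {M : ModuleCat.{u} R} {μ : Cardinal.{u}} (hμ : ℵ₀ ≤ μ)
    (hR : #R ≤ μ) (hM : #M ≤ μ) : LtPresented (Order.succ μ) M := by
  let φ : (M →₀ R) →ₗ[R] M := Finsupp.linearCombination R (id : M → M)
  have hs : Function.Surjective φ := fun m => ⟨Finsupp.single m 1, by simp [φ]⟩
  refine ⟨M, (LinearMap.ker φ : Submodule R (M →₀ R)), Order.lt_succ_of_le hM, ?_, ⟨?_⟩⟩
  · refine Order.lt_succ_of_le ?_
    exact (Cardinal.mk_set_le _).trans (mk_finsupp_le M hμ hM hR)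
  · rw [Submodule.span_eq]
    exact φ.quotKerEquivOfSurjective hs

theorem card_of_ltPresented {M : ModuleCat.{u} R} {μ κ : Cardinal.{u}} (hμ : ℵ₀ ≤ μ)
    (hR : #R ≤ μ) (hκ : κ ≤ Order.succ μ) (hM : LtPresented κ M) : #M ≤ μ := by
  obtain ⟨X, s, hX, -, ⟨e⟩⟩ := hM
  have h1 : #X ≤ μ := Order.lt_succ_iff.1 (hX.trans_le hκ)
  calc #M = #((X →₀ R) ⧸ Submodule.span R s) := (Cardinal.mk_congr e.toEquiv).symm
    _ ≤ #(X →₀ R) := Cardinal.mk_le_of_surjective (Submodule.mkQ_surjective _)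
    _ ≤ μ := mk_finsupp_le X hμ h1 hR

theorem filt_mono {A B : Cls R} (h : ∀ M, A M → B M) {M : Type u} [AddCommGroup M] [Module R M]
    (H : Filt A M) : Filt B M := by
  obtain ⟨W, i1, i2, F, h1, h2, h3⟩ := H
  exact ⟨W, i1, i2, F, h1, h2, fun w => h _ (h3 w)⟩

theorem dirLim_mono {C D : Cls R} (h : ∀ M, C M → D M) {M : ModuleCat.{u} R} (H : DirLim C M) :
    DirLim D M := by
  obtain ⟨I, i1, i2, i3, i4, X, f, hf, hC, e⟩ := H
  exact ⟨I, i1, i2, i3, i4, X, f, hf, fun i => h _ (hC i), e⟩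

theorem mk_TT_le (K : Type u) {lam : Cardinal.{u}} (hl : ℵ₀ ≤ lam) (hK : #K ≤ lam)
    (hR : #R ≤ lam) : #(TT R K) ≤ 2 ^ lam := by
  have h1 : #(K × K × K) ≤ lam := by
    rw [Cardinal.mk_prod, Cardinal.mk_prod]
    simp only [Cardinal.lift_id]
    exact (mul_le_mul' hK ((mul_le_mul' hK hK).trans (Cardinal.mul_eq_self hl).le)).trans
      (Cardinal.mul_eq_self hl).le
  have h2 : #(R × K × K) ≤ lam := by
    rw [Cardinal.mk_prod, Cardinal.mk_prod]
    simp only [Cardinal.lift_id]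
    exact (mul_le_mul' hR ((mul_le_mul' hK hK).trans (Cardinal.mul_eq_self hl).le)).trans
      (Cardinal.mul_eq_self hl).le
  have h3 : #(K × K) ≤ lam := by
    rw [Cardinal.mk_prod]
    simp only [Cardinal.lift_id]
    exact (mul_le_mul' hK hK).trans (Cardinal.mul_eq_self hl).le
  have hp : ∀ X : Type u, #X ≤ lam → #(Set X) ≤ 2 ^ lam := fun X hX => by
    rw [Cardinal.mk_set]
    exact Cardinal.power_le_power_left two_ne_zero hX
  have h4 : ℵ₀ ≤ (2 : Cardinal.{u}) ^ lam := hl.trans (Cardinal.cantor _).le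
  have h5 : #(TT R K) = #(Set (K × K × K)) * (#(Set (R × K × K)) * #(Set (K × K))) := by
    simp [TT]
  rw [h5]
  exact (mul_le_mul' (hp _ h1) ((mul_le_mul' (hp _ h2) (hp _ h3)).trans
    (Cardinal.mul_eq_self h4).le)).trans (Cardinal.mul_eq_self h4).le

/-- The main result for locally small classes. -/
theorem kDec_of_locSmall {C : Cls R} {ν lam : Cardinal.{u}} (hν : ℵ₀ ≤ ν) (LS : LocSmall C ν)
    (hνl : ν ≤ lam) (hR : #R ≤ lam) :
    (Order.succ ((2 : Cardinal.{u}) ^ lam)).IsRegular ∧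
      KDeconstructible (Order.succ ((2 : Cardinal.{u}) ^ lam)) (DirLim C) := by
  have hl : ℵ₀ ≤ lam := hν.trans hνl
  have h4 : lam ≤ (2 : Cardinal.{u}) ^ lam := (Cardinal.cantor _).le
  refine ⟨Cardinal.isRegular_succ (hl.trans h4), ?_⟩
  intro M hM
  apply hasFiltration_of_filt
  obtain ⟨c, hc⟩ := limC_of_dirLim hM
  obtain ⟨c', hc'⟩ := limC_small hν LS hc
  have hK : #(ν.out) = ν := Cardinal.mk_out ν
  have h5 := thmA (C := fun M : ModuleCat.{u} R => C M ∧ #M ≤ ν) (K := ν.out)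
    (fun M hM => by rw [hK]; exact hM.2) (μ := 2 ^ lam)
    (mk_TT_le _ hl (by rwa [hK]) hR) (by rw [hK]; exact hνl.trans h4) (hl.trans h4) c' M hc'
  refine filt_mono ?_ h5
  rintro N ⟨h6, h7⟩
  exact ⟨dirLim_mono (fun _ h => h.1) h6, ltPresented_of_card (hl.trans h4) (hR.trans h4) h7⟩

end Pool.Agent.W440.DL
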