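import Pool.Agent.W275.US.Stm
import Pool.Agent.W275.US.Vol

/-! US-MP (helper440): polar decomposition in all blocks -/

set_option autoImplicit false

namespace Pool.Agent.W440.USMP

open MeasureTheory Set Pool.Agent.W275.US
open scoped ENNReal InnerProductSpace

theorem main : S_pol → S_mp := by
  intro hpol b d hd p hp
  have : ∀ i, IsProbabilityMeasure (unif (p i)) := fun i => unif_prob (hp i)
  have : IsProbabilityMeasure (uu p) := by
    unfold uu
    infer_instance
  have h1 : ∀ i : Fin b, MeasurePreserving (fun q : E d × E d => p i q.1 • dir (p i) q.2)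
      ((volume : Measure (E d)).prod (unif (p i))) volume := fun i => hpol d hd (p i) (hp i)
  have h2 : MeasurePreserving
      (fun (q : Fin b → E d × E d) (i : Fin b) => p i (q i).1 • dir (p i) (q i).2)
      (Measure.pi fun i => (volume : Measure (E d)).prod (unif (p i)))
      (Measure.pi fun _ : Fin b => (volume : Measure (E d))) :=
    measurePreserving_pi _ _ h1
  have h3 : MeasurePreserving (MeasurableEquiv.arrowProdEquivProdArrow (E d) (E d) (Fin b)).symm
      ((Measure.pi fun _ : Fin b => (volume : Measure (E d))).prod
        (Measure.pi fun i : Fin b => unif (p i)))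
      (Measure.pi fun i => (volume : Measure (E d)).prod (unif (p i))) :=
    (measurePreserving_arrowProdEquivProdArrow (E d) (E d) (Fin b)
      (fun _ => (volume : Measure (E d))) (fun i => unif (p i))).symm _
  have h4 : MeasurePreserving (Prod.map (fun (x : X b d) (i : Fin b) => blk i x)
      (id : (Fin b → E d) → (Fin b → E d)))
      ((volume : Measure (X b d)).prod (uu p))
      ((Measure.pi fun _ : Fin b => (volume : Measure (E d))).prod
        (Measure.pi fun i : Fin b => unif (p i))) :=
    (blk_mp b d).prod (MeasurePreserving.id _)
  exact (cat_mp b d).comp (h2.comp (h3.comp h4))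

end Pool.Agent.W440.USMP
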