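import Pool.Agent.W275.US.Stm

/-! US-OMEGA (helper440): the second moment of the direction -/

set_option autoImplicit false

namespace Pool.Agent.W440.USOMEGA

open MeasureTheory Set Pool.Agent.W275.US
open scoped ENNReal InnerProductSpace Pointwise

variable {d : ℕ}

theorem half_ball (p : Seminorm ℝ (E d)) : {y : E d | p y ≤ 1 / 2} = (1 / 2 : ℝ) • ball1 p := by
  ext y
  rw [Set.mem_smul_set_iff_inv_smul_mem₀ (by norm_num : (1 / 2 : ℝ) ≠ 0)]
  simp only [mem_setOf_eq, ball1, map_smul_eq_mul]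
  norm_num
  constructor
  · intro h
    linarith
  · intro h
    linarith

/-- the mean of `p²` over the ball -/
theorem p_sq_ge (hd : 1 ≤ d) (p : Seminorm ℝ (E d)) (hp : Def p) :
    (volume (ball1 p)).toReal / 8 ≤ ∫ y in ball1 p, p y ^ 2 := by
  obtain ⟨hV0, hVt⟩ := ball1_vol hp
  have hBm := ball1_meas p
  set B := ball1 p with hB
  set B' : Set (E d) := {y : E d | p y ≤ 1 / 2} with hB'
  have hB'm : MeasurableSet B' := (isClosed_le (p_cont p) continuous_const).measurableSet
  have hsub : B' ⊆ B := fun y hy => by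
    have h1 : p y ≤ 1 / 2 := hy
    show p y ≤ 1
    linarith
  have hvol : (volume B').toReal ≤ (volume B).toReal / 2 := by
    rw [hB', half_ball, Measure.addHaar_smul, finrank_euclideanSpace_fin, ENNReal.toReal_mul,
      ENNReal.toReal_ofReal (abs_nonneg _), abs_of_nonneg (by positivity)]
    have h1 : (1 / 2 : ℝ) ^ d ≤ 1 / 2 := by
      calc (1 / 2 : ℝ) ^ d ≤ (1 / 2 : ℝ) ^ 1 :=
            pow_le_pow_of_le_one (by norm_num) (by norm_num) hd
        _ = 1 / 2 := pow_one _
    have h2 : 0 ≤ (volume (ball1 p)).toReal := ENNReal.toReal_nonneg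
    nlinarith
  have hint : IntegrableOn (fun y => p y ^ 2) B volume :=
    ((p_cont p).pow 2).continuousOn.integrableOn_compact (ball1_compact hp)
  have h3 : ∫ y in B \ B', p y ^ 2 ≤ ∫ y in B, p y ^ 2 :=
    setIntegral_mono_set hint (Filter.Eventually.of_forall fun y => by positivity)
      (Filter.Eventually.of_forall (diff_subset : B \ B' ⊆ B))
  have hfin : volume (B \ B') ≠ ⊤ := (measure_mono diff_subset).trans_lt hVt |>.ne
  have h4 : ∫ _y in B \ B', (1 / 4 : ℝ) ≤ ∫ y in B \ B', p y ^ 2 := by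
    refine setIntegral_mono_on ?_ (hint.mono_set diff_subset) (hBm.diff hB'm) fun y hy => ?_
    · exact integrableOn_const hfin
    · have h5 : 1 / 2 < p y := not_le.1 hy.2
      nlinarith
  rw [setIntegral_const, smul_eq_mul, measureReal_def,
    measure_diff hsub hB'm.nullMeasurableSet ((measure_mono hsub).trans_lt hVt).ne,
    ENNReal.toReal_sub_of_le (measure_mono hsub) hVt.ne] at h4
  linarith

theorem main : S_pol → S_omega := by
  intro hpol d hd p hp
  have hmp := hpol d hd p hp
  have hprob := unif_prob hp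
  have hBm := ball1_meas p
  obtain ⟨hV0, hVt⟩ := ball1_vol hp
  have hV : 0 < (volume (ball1 p)).toReal := ENNReal.toReal_pos hV0.ne' hVt.ne
  have hφm : Measurable ((ball1 p).indicator fun x : E d => ‖x‖ ^ 2) :=
    (measurable_norm.pow_const 2).indicator hBm
  have e1 : ∫ x, (ball1 p).indicator (fun x : E d => ‖x‖ ^ 2) x =
      ∫ q : E d × E d, (ball1 p).indicator (fun x : E d => ‖x‖ ^ 2) (p q.1 • dir p q.2)
        ∂((volume : Measure (E d)).prod (unif p)) := by
    have h := integral_map (μ := (volume : Measure (E d)).prod (unif p))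
      hmp.measurable.aemeasurable
      (f := (ball1 p).indicator fun x : E d => ‖x‖ ^ 2) hφm.aestronglyMeasurable
    rw [hmp.map_eq] at h
    exact h
  have e2 : ∫ q : E d × E d, (ball1 p).indicator (fun x : E d => ‖x‖ ^ 2) (p q.1 • dir p q.2)
        ∂((volume : Measure (E d)).prod (unif p)) =
      ∫ q : E d × E d, (ball1 p).indicator (fun y : E d => p y ^ 2) q.1 * ‖dir p q.2‖ ^ 2
        ∂((volume : Measure (E d)).prod (unif p)) := by
    refine integral_congr_ae ?_
    have h2 : ∀ᵐ q ∂((volume : Measure (E d)).prod (unif p)), q.2 ≠ 0 :=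
      Measure.quasiMeasurePreserving_snd.ae (unif_ne hd)
    filter_upwards [h2] with q hq
    have hpq : p (p q.1 • dir p q.2) = p q.1 := by
      rw [map_smul_eq_mul, p_dir hp hq, mul_one, Real.norm_eq_abs,
        abs_of_nonneg (apply_nonneg p _)]
    by_cases h : q.1 ∈ ball1 p
    · have h' : p q.1 • dir p q.2 ∈ ball1 p := by
        show p _ ≤ 1
        rw [hpq]
        exact h
      rw [indicator_of_mem h', indicator_of_mem h, norm_smul, mul_pow, Real.norm_eq_abs, sq_abs]
    · have h' : p q.1 • dir p q.2 ∉ ball1 p := by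
        intro h3
        apply h
        have h4 : p (p q.1 • dir p q.2) ≤ 1 := h3
        rw [hpq] at h4
        exact h4
      rw [indicator_of_notMem h', indicator_of_notMem h, zero_mul]
  rw [e2, integral_prod_mul (fun y : E d => (ball1 p).indicator (fun y : E d => p y ^ 2) y)
    (fun u : E d => ‖dir p u‖ ^ 2), integral_indicator hBm, integral_indicator hBm] at e1
  have e3 : ∫ u, ‖u‖ ^ 2 ∂(unif p) =
      (volume (ball1 p)).toReal⁻¹ * ∫ x in ball1 p, ‖x‖ ^ 2 := by
    unfold unif ProbabilityTheory.cond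
    rw [integral_smul_measure, ENNReal.toReal_inv, smul_eq_mul]
  have hP := p_sq_ge hd p hp
  have hI : 0 ≤ ∫ u, ‖dir p u‖ ^ 2 ∂(unif p) := integral_nonneg fun u => by positivity
  rw [e3, e1]
  have h5 : (volume (ball1 p)).toReal / 8 * (∫ u, ‖dir p u‖ ^ 2 ∂(unif p)) ≤
      (∫ y in ball1 p, p y ^ 2) * ∫ u, ‖dir p u‖ ^ 2 ∂(unif p) :=
    mul_le_mul_of_nonneg_right hP hI
  have h6 := mul_le_mul_of_nonneg_left h5 (inv_nonneg.2 hV.le)
  have h7 : (volume (ball1 p)).toReal⁻¹ * ((volume (ball1 p)).toReal / 8 *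
      (∫ u, ‖dir p u‖ ^ 2 ∂(unif p))) = (∫ u, ‖dir p u‖ ^ 2 ∂(unif p)) / 8 := by
    field_simp
  rw [h7] at h6
  linarith

end Pool.Agent.W440.USOMEGA
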