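import Pool.Agent.W440.DLRel

set_option autoImplicit false

namespace Pool.Agent.W440.DL

open Cardinal

universe u

variable {R : Type u} [Ring R] {I : Type u} [PartialOrder I]

section Typ

variable {K : Type u} (S : Sys R I) (e : ∀ i, S.X i ↪ K)

/-- the space of types -/
abbrev TT (R K : Type u) : Type u := Set (K × K × K) × Set (R × K × K) × Set (K × K)

/-- the type of `X j → X i` -/
def typ {j i : I} (h : j ≤ i) : TT R K :=
  (Set.range (fun p : S.X i × S.X i => (e i p.1, e i p.2, e i (p.1 + p.2))),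
   Set.range (fun p : R × S.X i => (p.1, e i p.2, e i (p.1 • p.2))),
   Set.range (fun x : S.X j => (e j x, e i (S.f h x))))

theorem typ_iso {j i i' : I} (h : j ≤ i) (h' : j ≤ i') (ht : typ S e h = typ S e h') :
    ∃ ψ : S.X i ≃ₗ[R] S.X i', ∀ x : S.X j, ψ (S.f h x) = S.f h' x := by
  have h1 : Set.range (fun p : S.X i × S.X i => (e i p.1, e i p.2, e i (p.1 + p.2))) =
    Set.range (fun p : S.X i' × S.X i' => (e i' p.1, e i' p.2, e i' (p.1 + p.2))) :=
    congrArg Prod.fst ht
  have h2 : Set.range (fun p : R × S.X i => (p.1, e i p.2, e i (p.1 • p.2))) =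
    Set.range (fun p : R × S.X i' => (p.1, e i' p.2, e i' (p.1 • p.2))) :=
    congrArg (fun t => t.2.1) ht
  have h3 : Set.range (fun x : S.X j => (e j x, e i (S.f h x))) =
    Set.range (fun x : S.X j => (e j x, e i' (S.f h' x))) :=
    congrArg (fun t => t.2.2) ht
  have ha : ∀ a : S.X i, ∃ a' : S.X i', e i' a' = e i a := by
    intro a
    have : (e i a, e i a, e i (a + a)) ∈
        Set.range (fun p : S.X i' × S.X i' => (e i' p.1, e i' p.2, e i' (p.1 + p.2))) := by
      rw [← h1]; exact ⟨(a, a), rfl⟩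
    obtain ⟨⟨b, c⟩, hb⟩ := this
    exact ⟨b, congrArg Prod.fst hb⟩
  have ha' : ∀ a : S.X i', ∃ a' : S.X i, e i a' = e i' a := by
    intro a
    have : (e i' a, e i' a, e i' (a + a)) ∈
        Set.range (fun p : S.X i × S.X i => (e i p.1, e i p.2, e i (p.1 + p.2))) := by
      rw [h1]; exact ⟨(a, a), rfl⟩
    obtain ⟨⟨b, c⟩, hb⟩ := this
    exact ⟨b, congrArg Prod.fst hb⟩
  choose ψ hψ using ha
  choose φ hφ using ha'
  refine ⟨⟨⟨⟨ψ, ?_⟩, ?_⟩, φ, ?_, ?_⟩, ?_⟩
  · intro a b
    have : (e i a, e i b, e i (a + b)) ∈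
        Set.range (fun p : S.X i' × S.X i' => (e i' p.1, e i' p.2, e i' (p.1 + p.2))) := by
      rw [← h1]; exact ⟨(a, b), rfl⟩
    obtain ⟨⟨c, d⟩, hcd⟩ := this
    have e1 : e i' c = e i a := congrArg Prod.fst hcd
    have e2 : e i' d = e i b := congrArg (fun t => t.2.1) hcd
    have e3 : e i' (c + d) = e i (a + b) := congrArg (fun t => t.2.2) hcd
    have e4 : c = ψ a := (e i').injective (e1.trans (hψ a).symm)
    have e5 : d = ψ b := (e i').injective (e2.trans (hψ b).symm)
    apply (e i').injective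
    rw [hψ, ← e3, e4, e5]
  · intro r b
    have : (r, e i b, e i (r • b)) ∈
        Set.range (fun p : R × S.X i' => (p.1, e i' p.2, e i' (p.1 • p.2))) := by
      rw [← h2]; exact ⟨(r, b), rfl⟩
    obtain ⟨⟨c, d⟩, hcd⟩ := this
    have e1 : c = r := congrArg Prod.fst hcd
    have e2 : e i' d = e i b := congrArg (fun t => t.2.1) hcd
    have e3 : e i' (c • d) = e i (r • b) := congrArg (fun t => t.2.2) hcd
    have e5 : d = ψ b := (e i').injective (e2.trans (hψ b).symm)
    apply (e i').injective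
    show e i' (ψ (r • b)) = e i' (r • ψ b)
    rw [hψ, ← e3, e1, e5]
  · intro a
    exact (e i).injective ((hφ _).trans (hψ a))
  · intro a
    exact (e i').injective ((hψ _).trans (hφ a))
  · intro x
    have : (e j x, e i (S.f h x)) ∈ Set.range (fun x : S.X j => (e j x, e i' (S.f h' x))) := by
      rw [← h3]; exact ⟨x, rfl⟩
    obtain ⟨y, hy⟩ := this
    have e1 : e j y = e j x := congrArg Prod.fst hy
    have e2 : e i' (S.f h' y) = e i (S.f h x) := congrArg Prod.snd hy
    have e3 : y = x := (e j).injective e1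
    subst e3
    apply (e i').injective
    show e i' (ψ (S.f h y)) = _
    rw [hψ, e2]

end Typ

/-- closed sets -/
structure Clo {T : Type u} (ub : I → I → I) (hf : I → T → I) (J : Set I) : Prop where
  ub : ∀ j ∈ J, ∀ k ∈ J, ub j k ∈ J
  hf : ∀ j ∈ J, ∀ t, hf j t ∈ J

section Cl

omit [PartialOrder I] in
theorem clo_sInter {T : Type u} {ub : I → I → I} {hf : I → T → I} {𝒥 : Set (Set I)}
    (h : ∀ J ∈ 𝒥, Clo ub hf J) : Clo ub hf (⋂₀ 𝒥) where
  ub j hj k hk J hJ := (h J hJ).ub j (hj J hJ) k (hk J hJ)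
  hf j hj t J hJ := (h J hJ).hf j (hj J hJ) t

/-- closure -/
def cl {T : Type u} (ub : I → I → I) (hf : I → T → I) (Z : Set I) : Set I :=
  ⋂₀ {J | Z ⊆ J ∧ Clo ub hf J}

variable {T : Type u} {ub : I → I → I} {hf : I → T → I}

omit [PartialOrder I] in
theorem subset_cl (Z : Set I) : Z ⊆ cl ub hf Z := fun _ hz _ hJ => hJ.1 hz

omit [PartialOrder I] in
theorem clo_cl (Z : Set I) : Clo ub hf (cl ub hf Z) := clo_sInter fun _ hJ => hJ.2

omit [PartialOrder I] in
theorem cl_subset {Z J : Set I} (h : Z ⊆ J) (hJ : Clo ub hf J) : cl ub hf Z ⊆ J :=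
  fun _ hx => hx J ⟨h, hJ⟩

omit [PartialOrder I] in
theorem cl_mono {Z Z' : Set I} (h : Z ⊆ Z') : cl ub hf Z ⊆ cl ub hf Z' :=
  cl_subset (h.trans (subset_cl _)) (clo_cl _)

omit [PartialOrder I] in
theorem mk_cl_le (Z : Set I) : #(cl ub hf Z) ≤ max (max #Z #T) ℵ₀ := by
  let α : Type u := Z ⊕ T ⊕ PUnit.{u + 1}
  let β : α → Type u := Sum.elim (fun _ => PEmpty.{u + 1})
    (Sum.elim (fun _ => PUnit.{u + 1}) (fun _ => ULift.{u} Bool))
  have hβ : ∀ a, Finite (β a) := by
    rintro (a | a | a)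
    · show Finite PEmpty.{u + 1}; infer_instance
    · show Finite PUnit.{u + 1}; infer_instance
    · show Finite (ULift.{u} Bool); infer_instance
  let step : (a : α) → (β a → I) → I := fun a => match a with
    | Sum.inl z => fun _ => z.1
    | Sum.inr (Sum.inl t) => fun g => hf (g PUnit.unit) t
    | Sum.inr (Sum.inr _) => fun g => ub (g ⟨true⟩) (g ⟨false⟩)
  let ev : WType β → I := WType.elim I (fun p => step p.1 p.2)
  have hev : ∀ a f, ev (WType.mk a f) = step a (fun b => ev (f b)) := fun a f => rfl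
  have h1 : cl ub hf Z ⊆ Set.range ev := by
    apply cl_subset
    · intro z hz
      exact ⟨WType.mk (Sum.inl ⟨z, hz⟩) (fun b : PEmpty => b.elim), rfl⟩
    · constructor
      · rintro _ ⟨a, rfl⟩ _ ⟨b, rfl⟩
        exact ⟨WType.mk (Sum.inr (Sum.inr PUnit.unit))
          (fun x : ULift Bool => if x.down = true then a else b), rfl⟩
      · rintro _ ⟨a, rfl⟩ t
        exact ⟨WType.mk (Sum.inr (Sum.inl t)) (fun _ : PUnit => a), rfl⟩
  calc #(cl ub hf Z) ≤ #(Set.range ev) := Cardinal.mk_le_mk_of_subset h1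
    _ ≤ #(WType β) := Cardinal.mk_range_le
    _ ≤ max #α ℵ₀ := WType.cardinalMk_le_max_aleph0_of_finite
    _ ≤ max (max #Z #T) ℵ₀ := by
      refine max_le ?_ (le_max_right _ _)
      have : #α = #Z + (#T + 1) := by simp [α]
      rw [this]
      have h2 : ℵ₀ ≤ max (max #Z #T) ℵ₀ := le_max_right _ _
      refine Cardinal.add_le_of_le h2 ((le_max_left _ _).trans (le_max_left _ _))
        (Cardinal.add_le_of_le h2 ((le_max_right _ _).trans (le_max_left _ _)) ?_)
      exact Cardinal.one_le_aleph0.trans h2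

end Cl

end Pool.Agent.W440.DL
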