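import Mathlib

set_option autoImplicit false

/-!
# Direct limits of deconstructible classes: definitions
-/

namespace Pool.Agent.W440.DL

open Cardinal

universe u

/-- A class of (left) `R`-modules. -/
abbrev Cls (R : Type u) [Ring R] := ModuleCat.{u} R → Prop

/-- The class is closed under isomorphic copies. -/
def IsoClosed {R : Type u} [Ring R] (C : Cls R) : Prop :=
  ∀ M N : ModuleCat.{u} R, Nonempty (M ≃ₗ[R] N) → C M → C N

/-- The quotient `S / T` of a submodule `S` by a submodule `T` (used for `T ≤ S`). -/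
abbrev quo {R : Type u} [Ring R] {M : Type u} [AddCommGroup M] [Module R M]
    (S T : Submodule R M) : ModuleCat.{u} R :=
  ModuleCat.of R (S ⧸ T.submoduleOf S)

/-- `M` has an `A`-filtration: a chain `(F α)` of submodules indexed by the ordinals `α ≤ σ`, with
`F 0 = 0`, `F σ = M`, `F α ≤ F (α + 1)`, unions at limit ordinals, and all the consecutive factors
`F (α + 1) / F α` in `A`. -/
def HasFiltration {R : Type u} [Ring R] (A : Cls R) (M : ModuleCat.{u} R) : Prop :=
  ∃ (σ : Ordinal.{u}) (F : Ordinal.{u} → Submodule R M),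
    F 0 = ⊥ ∧ F σ = ⊤ ∧ (∀ α < σ, F α ≤ F (Order.succ α)) ∧
    (∀ α ≤ σ, Order.IsSuccLimit α → (F α : Set M) = ⋃ β : Set.Iio α, (F β : Set M)) ∧
    ∀ α < σ, A (quo (F (Order.succ α)) (F α))

/-- `M` is `<κ`-presented: it has fewer than `κ` generators with fewer than `κ` relations. -/
def LtPresented {R : Type u} [Ring R] (κ : Cardinal.{u}) (M : ModuleCat.{u} R) : Prop :=
  ∃ (X : Type u) (s : Set (X →₀ R)), #X < κ ∧ #s < κ ∧
    Nonempty (((X →₀ R) ⧸ Submodule.span R s) ≃ₗ[R] M)

/-- `C` is `κ`-deconstructible: every module in `C` has a filtration by `<κ`-presented modules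
from `C`. -/
def KDeconstructible {R : Type u} [Ring R] (κ : Cardinal.{u}) (C : Cls R) : Prop :=
  ∀ M, C M → HasFiltration (fun N => C N ∧ LtPresented κ N) M

/-- `C` is deconstructible: `κ`-deconstructible for some infinite regular cardinal `κ`. -/
def Deconstructible {R : Type u} [Ring R] (C : Cls R) : Prop :=
  ∃ κ : Cardinal.{u}, κ.IsRegular ∧ KDeconstructible κ C

/-- The class of all modules isomorphic to the direct limit of a direct system (over a directed
poset) of modules from `C`. -/
def DirLim {R : Type u} [Ring R] (C : Cls R) : Cls R := fun M =>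
  ∃ (I : Type u) (_ : PartialOrder I) (_ : IsDirectedOrder I) (_ : Nonempty I)
    (_ : DecidableEq I) (X : I → ModuleCat.{u} R) (f : ∀ i j, i ≤ j → X i →ₗ[R] X j)
    (_ : DirectedSystem (fun i => (X i : Type u)) fun i j h => f i j h),
    (∀ i, C (X i)) ∧ Nonempty (Module.DirectLimit (fun i => (X i : Type u)) f ≃ₗ[R] M)

end Pool.Agent.W440.DL
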