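import Pool.Agent.W440.DLSys

set_option autoImplicit false

namespace Pool.Agent.W440.DL

open Cardinal

universe u

variable {R : Type u} [Ring R]

/-- index type of the interleaved system -/
structure ILIdx (A : Type u) where
  /-- first component -/
  fst : A
  /-- level -/
  lv : ℕ

section Interleave

variable {A : Type u} [PartialOrder A] (b : A → A)

/-- The order on `A × ℕ` with `(a, m) < (a', n)` iff `m < n` and `b a ≤ a'`. -/
@[reducible] def ilOrder (hb : ∀ a, a ≤ b a) : PartialOrder (ILIdx A) where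
  le p q := p = q ∨ (p.lv < q.lv ∧ b p.fst ≤ q.fst)
  le_refl p := Or.inl rfl
  le_trans p q r := by
    rintro (rfl | ⟨h1, h2⟩) (rfl | ⟨h3, h4⟩)
    · exact Or.inl rfl
    · exact Or.inr ⟨h3, h4⟩
    · exact Or.inr ⟨h1, h2⟩
    · exact Or.inr ⟨h1.trans h3, h2.trans ((hb _).trans h4)⟩
  le_antisymm p q := by
    rintro (rfl | ⟨h1, h2⟩) (h | ⟨h3, h4⟩)
    · rfl
    · rfl
    · exact h.symm
    · omega

variable (Z : Sys R A) (P : A → ModuleCat.{u} R) (uu : ∀ a, Z.X a →ₗ[R] P a)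
  (vv : ∀ a, P a →ₗ[R] Z.X (b a))

open Classical in
/-- transition maps of the interleaved system -/
noncomputable def ilTr (p q : ILIdx A) : P p.fst →ₗ[R] P q.fst :=
  if e : p = q then (e ▸ (LinearMap.id : P p.fst →ₗ[R] P p.fst))
  else if h : b p.fst ≤ q.fst then (uu q.fst) ∘ₗ (Z.f h) ∘ₗ (vv p.fst) else 0

theorem ilTr_self (p : ILIdx A) (x : P p.fst) : ilTr b Z P uu vv p p x = x := by
  simp [ilTr]

theorem ilTr_lt {p q : ILIdx A} (h1 : p.lv < q.lv) (h2 : b p.fst ≤ q.fst)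
    (x : P p.fst) : ilTr b Z P uu vv p q x = uu q.fst (Z.f h2 (vv p.fst x)) := by
  have hne : p ≠ q := by rintro rfl; exact lt_irrefl _ h1
  simp [ilTr, hne, h2]

end Interleave

theorem limC_of_factor {C : Cls R} {A : Type u} [PartialOrder A] [IsDirectedOrder A] [Nonempty A]
    {Z : Sys R A} {Y : Type u} [AddCommGroup Y] [Module R Y] {g : ∀ a, Z.X a →ₗ[R] Y}
    (H : IsLim Z Y g)
    (hfac : ∀ a : A, ∃ b : A, ∃ h : a ≤ b, ∃ P : ModuleCat.{u} R, C P ∧
      ∃ (u : Z.X a →ₗ[R] P) (v : P →ₗ[R] Z.X b), ∀ x, v (u x) = Z.f h x) :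
    LimC C (max #A ℵ₀) Y := by
  classical
  choose b hb P hP uu vv huv using hfac
  let := ilOrder b hb
  refine ⟨ILIdx A, inferInstance, ⟨?_⟩, ⟨⟨Classical.arbitrary A, 0⟩⟩,
    ⟨fun p => P p.fst, fun {p q} _ => ilTr b Z P uu vv p q, ?_, ?_⟩, ?_, fun p => hP p.fst,
    fun p => g (b p.fst) ∘ₗ vv p.fst, ?_, ?_, ?_⟩
  · intro p q
    obtain ⟨c, h1, h2⟩ := exists_ge_ge (b p.fst) (b q.fst)
    exact ⟨⟨c, max p.lv q.lv + 1⟩, Or.inr ⟨by simp only; omega, h1⟩,
      Or.inr ⟨by simp only; omega, h2⟩⟩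
  · intro p x; exact ilTr_self b Z P uu vv p x
  · rintro p q r (rfl | ⟨h1, h2⟩) (rfl | ⟨h3, h4⟩) x
    · simp only [ilTr_self]
    · simp only [ilTr_self]
    · simp only [ilTr_self]
    · have h5 : p.lv < r.lv := h1.trans h3
      have h6 : b p.fst ≤ r.fst := h2.trans ((hb _).trans h4)
      rw [ilTr_lt b Z P uu vv h1 h2, ilTr_lt b Z P uu vv h3 h4, ilTr_lt b Z P uu vv h5 h6, huv,
        Z.map_map, Z.map_map]
  · have e : ILIdx A ≃ A × ULift.{u} ℕ :=
      { toFun := fun p => (p.fst, ⟨p.lv⟩), invFun := fun q => ⟨q.1, q.2.down⟩,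
        left_inv := fun _ => rfl, right_inv := fun _ => rfl }
    rw [Cardinal.mk_congr e, Cardinal.mk_prod]
    simp only [Cardinal.lift_id, Cardinal.mk_uLift, Cardinal.mk_nat, Cardinal.lift_aleph0]
    exact (Cardinal.mul_le_max _ _).trans (by simp)
  · rintro p q (rfl | ⟨h1, h2⟩) x
    · simp only [ilTr_self]
    · simp only [LinearMap.comp_apply]
      rw [ilTr_lt b Z P uu vv h1 h2, huv, H.comp, H.comp]
  · intro y
    obtain ⟨a, z, rfl⟩ := H.surj y
    refine ⟨⟨a, 0⟩, uu a z, ?_⟩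
    simp only [LinearMap.comp_apply]
    rw [huv, H.comp]
  · intro p x hx
    obtain ⟨c, hc, hx'⟩ := H.ker _ _ hx
    refine ⟨⟨c, p.lv + 1⟩, Or.inr ⟨by simp only; omega, hc⟩, ?_⟩
    rw [ilTr_lt b Z P uu vv (by simp only; omega) hc, hx', map_zero]

end Pool.Agent.W440.DL
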