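import Pool.Agent.W440.DLDefs

set_option autoImplicit false

namespace Pool.Agent.W440.DL

open Cardinal

universe u

variable {R : Type u} [Ring R]

/-- internal filtration indexed by an arbitrary well-ordered type -/
def Filt (A : Cls R) (M : Type u) [AddCommGroup M] [Module R M] : Prop :=
  ∃ (W : Type u) (_ : LinearOrder W) (_ : WellFoundedLT W) (F : W → Submodule R M),
    Monotone F ∧ (⨆ w, F w) = ⊤ ∧ ∀ w, A (quo (F w) (⨆ v : Set.Iio w, F v))

theorem quo_equiv {M : Type u} [AddCommGroup M] [Module R M] {S T : Submodule R M}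
    {P : Type u} [AddCommGroup P] [Module R P] (φ : S →ₗ[R] P) (hs : Function.Surjective φ)
    (hk : ∀ x : S, φ x = 0 ↔ (x : M) ∈ T) : Nonempty ((S ⧸ T.submoduleOf S) ≃ₗ[R] P) := by
  have h : T.submoduleOf S = LinearMap.ker φ := by
    ext x
    exact (hk x).symm
  exact ⟨(Submodule.quotEquivOfEq _ _ h).trans (φ.quotKerEquivOfSurjective hs)⟩

section Concat

variable {M : Type u} [AddCommGroup M] [Module R M]

/-- preimage in `M` of a submodule of `S / T` -/
def pre (S T : Submodule R M) (G : Submodule R (S ⧸ T.submoduleOf S)) : Submodule R M :=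
  (G.comap (Submodule.mkQ _)).map S.subtype

theorem mem_pre {S T : Submodule R M} {G : Submodule R (S ⧸ T.submoduleOf S)} {m : M} :
    m ∈ pre S T G ↔ ∃ h : m ∈ S, (Submodule.mkQ (T.submoduleOf S)) ⟨m, h⟩ ∈ G := by
  unfold pre
  rw [Submodule.mem_map]
  constructor
  · rintro ⟨⟨y, hy⟩, h1, rfl⟩
    exact ⟨hy, h1⟩
  · rintro ⟨h, h'⟩
    exact ⟨⟨m, h⟩, h', rfl⟩

theorem pre_le {S T : Submodule R M} {G : Submodule R (S ⧸ T.submoduleOf S)} :
    pre S T G ≤ S := fun _ hm => (mem_pre.1 hm).1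

theorem le_pre {S T : Submodule R M} (hTS : T ≤ S) {G : Submodule R (S ⧸ T.submoduleOf S)} :
    T ≤ pre S T G := fun m hm => mem_pre.2 ⟨hTS hm, by
  have : (Submodule.mkQ (T.submoduleOf S)) ⟨m, hTS hm⟩ = 0 := by
    rw [Submodule.mkQ_apply, Submodule.Quotient.mk_eq_zero]
    exact hm
  rw [this]; exact G.zero_mem⟩

theorem pre_mono {S T : Submodule R M} {G G' : Submodule R (S ⧸ T.submoduleOf S)} (h : G ≤ G') :
    pre S T G ≤ pre S T G' := fun _ hm => by
  obtain ⟨h1, h2⟩ := mem_pre.1 hm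
  exact mem_pre.2 ⟨h1, h h2⟩

theorem pre_iSup_le {S T : Submodule R M} {ι : Type u} (G : ι → Submodule R (S ⧸ T.submoduleOf S))
    (B : Submodule R M) (hT : T ≤ B) (h : ∀ i, pre S T (G i) ≤ B) :
    pre S T (⨆ i, G i) ≤ B := by
  intro x hx
  obtain ⟨hx1, hx2⟩ := mem_pre.1 hx
  have key : (⨆ i, G i) ≤ (B.comap S.subtype).map (Submodule.mkQ (T.submoduleOf S)) := by
    refine iSup_le fun i z hz => ?_
    obtain ⟨⟨y, hy⟩, rfl⟩ := Submodule.mkQ_surjective _ z
    exact ⟨⟨y, hy⟩, h i (mem_pre.2 ⟨hy, hz⟩), rfl⟩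
  obtain ⟨⟨y, hy⟩, h1, h2⟩ := key hx2
  have h3 : y ∈ B := h1
  rw [Submodule.mkQ_apply, Submodule.mkQ_apply, Submodule.Quotient.eq] at h2
  have h4 : y - x ∈ B := hT h2
  have h5 := B.sub_mem h3 h4
  simpa using h5

theorem pre_equiv {S T : Submodule R M} (G G' : Submodule R (S ⧸ T.submoduleOf S)) :
    Nonempty ((pre S T G ⧸ (pre S T G').submoduleOf (pre S T G)) ≃ₗ[R]
      (G ⧸ G'.submoduleOf G)) := by
  have h1 : ∀ x : pre S T G, (Submodule.mkQ (T.submoduleOf S) ∘ₗ Submodule.inclusion pre_le) x ∈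
      G := by
    rintro ⟨x, hx⟩
    exact (mem_pre.1 hx).2
  refine quo_equiv ((Submodule.mkQ _) ∘ₗ (LinearMap.codRestrict G
    ((Submodule.mkQ (T.submoduleOf S)) ∘ₗ (Submodule.inclusion pre_le)) h1)) ?_ ?_
  · intro z
    obtain ⟨⟨z, hz⟩, rfl⟩ := Submodule.mkQ_surjective _ z
    obtain ⟨⟨y, hy⟩, rfl⟩ := Submodule.mkQ_surjective _ z
    exact ⟨⟨y, mem_pre.2 ⟨hy, hz⟩⟩, rfl⟩
  · rintro ⟨x, hx⟩
    rw [LinearMap.comp_apply, Submodule.mkQ_apply, Submodule.Quotient.mk_eq_zero]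
    constructor
    · intro h
      exact mem_pre.2 ⟨(mem_pre.1 hx).1, h⟩
    · intro h
      exact (mem_pre.1 h).2

section LexTools

variable {W : Type u} [LinearOrder W] {V : W → Type u} [∀ w, LinearOrder (V w)]

/-- constructor -/
def lx (w : W) (v : V w) : Σₗ w, V w := toLex ⟨w, v⟩

theorem lx_surj (p : Σₗ w, V w) : ∃ w v, p = lx w v := ⟨(ofLex p).1, (ofLex p).2, rfl⟩

theorem lx_lt_left {w w' : W} (v : V w) (v' : V w') (h : w < w') : lx w v < lx w' v' :=
  Sigma.Lex.left (s := fun _ => (· < ·)) v v' h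

theorem lx_lt_right {w : W} {v v' : V w} (h : v < v') : lx w v < lx w v' :=
  Sigma.Lex.right (r := (· < ·)) (s := fun _ => (· < ·)) v v' h

theorem lx_lt_cases {p : Σₗ w, V w} {w : W} {v : V w} (h : p < lx w v) :
    (∃ w' v', p = lx w' v' ∧ w' < w) ∨ ∃ v', p = lx w v' ∧ v' < v := by
  obtain ⟨w', v', rfl⟩ := lx_surj p
  have h' : Sigma.Lex (· < ·) (fun _ => (· < ·)) (⟨w', v'⟩ : Sigma V) ⟨w, v⟩ := h
  cases h' with
  | left _ _ h1 => exact Or.inl ⟨w', v', rfl, h1⟩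
  | right _ _ h1 => exact Or.inr ⟨v', rfl, h1⟩

theorem sigmaLex_wf [WellFoundedLT W] [∀ w, WellFoundedLT (V w)] :
    WellFoundedLT (Σₗ w, V w) := by
  refine ⟨⟨?_⟩⟩
  suffices h : ∀ (w : W) (v : V w), Acc (· < ·) (lx w v) by
    intro p
    obtain ⟨w, v, rfl⟩ := lx_surj p
    exact h w v
  intro w
  refine WellFoundedLT.induction (motive := fun w => ∀ v : V w, Acc (· < ·) (lx w v)) w ?_
  intro w ih v
  refine WellFoundedLT.induction (motive := fun v : V w => Acc (· < ·) (lx w v)) v ?_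
  intro v ih2
  refine ⟨_, ?_⟩
  intro p hp
  rcases lx_lt_cases hp with ⟨w', v', rfl, h1⟩ | ⟨v', rfl, h1⟩
  · exact ih w' h1 v'
  · exact ih2 v' h1

end LexTools

theorem filt_concat {A : Cls R} (hA : IsoClosed A) {W : Type u} [LinearOrder W] [WellFoundedLT W]
    (F : W → Submodule R M) (hF : Monotone F) (htop : (⨆ w, F w) = ⊤)
    (h : ∀ w, Filt A (F w ⧸ (⨆ v : Set.Iio w, F v).submoduleOf (F w))) : Filt A M := by
  choose V i1 i2 G hG1 hG2 hG3 using h
  have hlt : ∀ w, (⨆ v : Set.Iio w, F v) ≤ F w := fun w => iSup_le fun v => hF v.2.le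
  let F' : (Σₗ w, V w) → Submodule R M := fun p =>
    pre (F (ofLex p).1) (⨆ v : Set.Iio (ofLex p).1, F v) (G (ofLex p).1 (ofLex p).2)
  have hF' : ∀ w v, F' (lx w v) = pre (F w) (⨆ v : Set.Iio w, F v) (G w v) := fun _ _ => rfl
  have hmono : Monotone F' := by
    intro p q hpq
    rcases hpq.eq_or_lt with rfl | hlt'
    · exact le_rfl
    obtain ⟨w, v, rfl⟩ := lx_surj q
    rcases lx_lt_cases hlt' with ⟨w', v', rfl, h1⟩ | ⟨v', rfl, h1⟩
    · exact pre_le.trans ((le_iSup (fun v : Set.Iio w => F v) ⟨w', h1⟩).trans (le_pre (hlt w)))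
    · exact pre_mono (hG1 _ h1.le)
  -- covering
  have hcov : ∀ (w : W) (B : Submodule R M), (∀ w' ≤ w, ∀ v', F' (lx w' v') ≤ B) → F w ≤ B := by
    intro w
    refine WellFoundedLT.induction (motive := fun w => ∀ (B : Submodule R M),
      (∀ w' ≤ w, ∀ v', F' (lx w' v') ≤ B) → F w ≤ B) w ?_
    intro w ih B hB
    have h1 : (⨆ v : Set.Iio w, F v) ≤ B :=
      iSup_le fun v => ih v v.2 B (fun w' hw' v' => hB w' (hw'.trans (le_of_lt v.2)) v')
    have h2 := pre_iSup_le (S := F w) (T := ⨆ v : Set.Iio w, F v) (G w) B h1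
      (fun v => hB w le_rfl v)
    intro x hx
    refine h2 (mem_pre.2 ⟨hx, ?_⟩)
    rw [hG2]
    trivial
  refine ⟨Σₗ w, V w, inferInstance, sigmaLex_wf, F', hmono, ?_, ?_⟩
  · rw [eq_top_iff, ← htop]
    exact iSup_le fun w => hcov w _ (fun w' _ v' => le_iSup F' (lx w' v'))
  · intro p
    obtain ⟨w, v, rfl⟩ := lx_surj p
    have key : (⨆ p : Set.Iio (lx w v), F' p) =
        pre (F w) (⨆ v : Set.Iio w, F v) (⨆ v' : Set.Iio v, G w v') := by
      apply le_antisymm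
      · refine iSup_le ?_
        rintro ⟨p, hp⟩
        rcases lx_lt_cases hp with ⟨w', v', rfl, h1⟩ | ⟨v', rfl, h1⟩
        · exact pre_le.trans ((le_iSup (fun v : Set.Iio w => F v) ⟨w', h1⟩).trans
            (le_pre (hlt w)))
        · exact pre_mono (le_iSup (fun v' : Set.Iio v => G w v') ⟨v', h1⟩)
      · apply pre_iSup_le
        · refine iSup_le ?_
          rintro ⟨w', hw'⟩
          exact hcov w' _ (fun w'' hw'' v'' => le_iSup (fun p : Set.Iio (lx w v) =>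
            F' p) ⟨lx w'' v'', lx_lt_left v'' v (lt_of_le_of_lt hw'' hw')⟩)
        · rintro ⟨v', hv'⟩
          exact le_iSup (fun p : Set.Iio (lx w v) => F' p) ⟨lx w v', lx_lt_right hv'⟩
    rw [key, hF']
    obtain ⟨e⟩ := pre_equiv (S := F w) (T := ⨆ v : Set.Iio w, F v) (G w v)
      (⨆ v' : Set.Iio v, G w v')
    exact hA _ _ ⟨e.symm⟩ (hG3 w v)

end Concat

end Pool.Agent.W440.DL
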