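import Pool.Agent.W440.DLSmall

set_option autoImplicit false

namespace Pool.Agent.W440.DL

open Cardinal

universe u

variable {R : Type u} [Ring R] {M : Type u} [AddCommGroup M] [Module R M]

theorem sub_iSup {ι : Type u} (N : ι → Submodule R M) (H : Submodule R M) (h : ∀ i, N i ≤ H) :
    (⨆ i, (N i).submoduleOf H) = (⨆ i, N i).submoduleOf H := by
  apply Submodule.map_injective_of_injective (Submodule.subtype_injective H)
  show Submodule.map H.subtype _ = Submodule.map H.subtype (Submodule.comap H.subtype _)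
  rw [Submodule.map_iSup, Submodule.map_comap_subtype, inf_eq_right.2 (iSup_le h)]
  congr 1
  funext i
  show Submodule.map H.subtype (Submodule.comap H.subtype _) = _
  rw [Submodule.map_comap_subtype, inf_eq_right.2 (h i)]

theorem filt_sub {A : Cls R} (hA : IsoClosed A) {V : Type u} [LinearOrder V] [WellFoundedLT V]
    (G : V → Submodule R M) (hG : Monotone G)
    (h : ∀ w, A (quo (G w) (⨆ v : Set.Iio w, G v))) : Filt A (⨆ w, G w : Submodule R M) := by
  have hle : ∀ w, G w ≤ ⨆ w, G w := fun w => le_iSup G w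
  refine ⟨V, inferInstance, inferInstance, fun w => (G w).submoduleOf (⨆ w, G w), ?_, ?_, ?_⟩
  · intro v w hvw x hx
    exact hG hvw hx
  · rw [sub_iSup _ _ hle, eq_top_iff]
    rintro ⟨x, hx⟩ -
    exact hx
  · intro w
    have e1 : (⨆ v : Set.Iio w, (G v).submoduleOf (⨆ w, G w)) =
        (⨆ v : Set.Iio w, G v).submoduleOf (⨆ w, G w) :=
      sub_iSup (fun v : Set.Iio w => G v) _ (fun v => hle v)
    rw [e1]
    have h1 : ∀ x : (G w).submoduleOf (⨆ w, G w),
        ((⨆ w, G w : Submodule R M).subtype ∘ₗ ((G w).submoduleOf (⨆ w, G w)).subtype) x ∈ G w :=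
      fun x => x.2
    obtain ⟨e⟩ := quo_equiv (S := (G w).submoduleOf (⨆ w, G w))
      (T := (⨆ v : Set.Iio w, G v).submoduleOf (⨆ w, G w))
      (P := G w ⧸ (⨆ v : Set.Iio w, G v).submoduleOf (G w))
      ((Submodule.mkQ _) ∘ₗ LinearMap.codRestrict (G w) _ h1) (by
        intro z
        obtain ⟨⟨z, hz⟩, rfl⟩ := Submodule.mkQ_surjective _ z
        exact ⟨⟨⟨z, hle w hz⟩, hz⟩, rfl⟩) (by
        rintro ⟨⟨x, hx⟩, hx'⟩
        rw [LinearMap.comp_apply, Submodule.mkQ_apply, Submodule.Quotient.mk_eq_zero]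
        exact Iff.rfl)
    exact hA _ _ ⟨e.symm⟩ (h w)

theorem mk_span_le (s : Set M) {μ : Cardinal.{u}} (hμ : ℵ₀ ≤ μ) (hs : #s ≤ μ) (hR : #R ≤ μ) :
    #(Submodule.span R s) ≤ μ := by
  have h1 : LinearMap.range (Finsupp.linearCombination R (Subtype.val : s → M)) =
      Submodule.span R s := by
    rw [Finsupp.range_linearCombination, Subtype.range_coe]
  rw [← h1]
  exact (Cardinal.mk_le_of_surjective
    (LinearMap.surjective_rangeRestrict (Finsupp.linearCombination R (Subtype.val : s → M)))).trans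
    (mk_finsupp_le s hμ hs hR)

section Hill

variable {W : Type u} [LinearOrder W] [WellFoundedLT W] (F : W → Submodule R M)
  (a : W → Submodule R M)

/-- closed sets of indices -/
def HClosed (T : Set W) : Prop :=
  ∀ w ∈ T, a w ⊓ (⨆ v : Set.Iio w, F v) ≤ ⨆ v : {v : W // v ∈ T ∧ v < w}, a v

/-- the submodule of a set of indices -/
def hsub (T : Set W) : Submodule R M := ⨆ v : T, a v

variable {F a}

theorem hsub_mono {T T' : Set W} (h : T ⊆ T') : hsub a T ≤ hsub a T' :=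
  iSup_le fun v => le_iSup (fun v : T' => a v) ⟨v, h v.2⟩

theorem hClosed_iUnion {ι : Type u} (T : ι → Set W) (h : ∀ i, HClosed F a (T i)) :
    HClosed F a (⋃ i, T i) := by
  intro w hw
  obtain ⟨i, hi⟩ := Set.mem_iUnion.1 hw
  refine (h i w hi).trans (iSup_le ?_)
  rintro ⟨v, hv1, hv2⟩
  exact le_iSup (fun v : {v : W // v ∈ (⋃ i, T i) ∧ v < w} => a v)
    ⟨v, Set.mem_iUnion.2 ⟨i, hv1⟩, hv2⟩

theorem hClosed_union {T T' : Set W} (h : HClosed F a T) (h' : HClosed F a T') :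
    HClosed F a (T ∪ T') := by
  rintro w (hw | hw)
  · refine (h w hw).trans (iSup_le ?_)
    rintro ⟨v, hv1, hv2⟩
    exact le_iSup (fun v : {v : W // v ∈ (T ∪ T') ∧ v < w} => a v) ⟨v, Or.inl hv1, hv2⟩
  · refine (h' w hw).trans (iSup_le ?_)
    rintro ⟨v, hv1, hv2⟩
    exact le_iSup (fun v : {v : W // v ∈ (T ∪ T') ∧ v < w} => a v) ⟨v, Or.inr hv1, hv2⟩

theorem hClosed_empty : HClosed F a ∅ := fun w hw => absurd hw (Set.notMem_empty w)

/-- elements below `w` -/
theorem mem_lt {F : W → Submodule R M} (hF : Monotone F) {w : W} {x : M}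
    (hx : x ∈ ⨆ v : Set.Iio w, F v) :
    x = 0 ∨ ∃ v < w, x ∈ F v := by
  rcases isEmpty_or_nonempty (Set.Iio w) with h | h
  · left
    rw [iSup_of_empty] at hx
    exact hx
  · right
    rw [Submodule.mem_iSup_of_directed] at hx
    · obtain ⟨v, hv⟩ := hx
      exact ⟨v, v.2, hv⟩
    · intro p q
      rcases le_total p.1 q.1 with h | h
      · exact ⟨q, hF h, le_rfl⟩
      · exact ⟨p, le_rfl, hF h⟩

theorem exists_closed (hF : Monotone F) {ν : Cardinal.{u}} (hν : ℵ₀ ≤ ν)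
    (ha : ∀ w, F w = (⨆ v : Set.Iio w, F v) ⊔ a w) (hac : ∀ w, #(a w) ≤ ν) :
    ∀ (w : W) (x : M), x ∈ F w → ∃ T : Set W, T ⊆ Set.Iic w ∧ #T ≤ ν ∧ HClosed F a T ∧
      x ∈ hsub a T := by
  intro w
  refine WellFoundedLT.induction (motive := fun w => ∀ (x : M), x ∈ F w → ∃ T : Set W,
    T ⊆ Set.Iic w ∧ #T ≤ ν ∧ HClosed F a T ∧ x ∈ hsub a T) w ?_
  intro w ih
  have ih' : ∀ y ∈ (⨆ v : Set.Iio w, F v), ∃ T : Set W, T ⊆ Set.Iio w ∧ #T ≤ ν ∧
      HClosed F a T ∧ y ∈ hsub a T := by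
    intro y hy
    rcases mem_lt hF hy with rfl | ⟨v, hv, hyv⟩
    · exact ⟨∅, Set.empty_subset _, by simp, hClosed_empty, Submodule.zero_mem _⟩
    · obtain ⟨T, h1, h2, h3, h4⟩ := ih v hv y hyv
      exact ⟨T, fun t ht => Set.mem_Iio.2 (lt_of_le_of_lt (h1 ht) hv), h2, h3, h4⟩
  intro x hx
  rw [ha w] at hx
  obtain ⟨y, hy, b, hb, rfl⟩ := Submodule.mem_sup.1 hx
  obtain ⟨T1, h1, h2, h3, h4⟩ := ih' y hy
  let B : Type u := (a w ⊓ (⨆ v : Set.Iio w, F v) : Submodule R M)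
  have hB : #B ≤ ν := (Cardinal.mk_le_of_injective
    (Submodule.inclusion_injective (inf_le_left : a w ⊓ (⨆ v : Set.Iio w, F v) ≤ a w))).trans (hac w)
  choose T2 g1 g2 g3 g4 using fun z : B => ih' z.1 z.2.2
  refine ⟨(T1 ∪ ⋃ z, T2 z) ∪ {w}, ?_, ?_, ?_, ?_⟩
  · rintro t ((ht | ht) | ht)
    · exact le_of_lt (h1 ht)
    · obtain ⟨z, hz⟩ := Set.mem_iUnion.1 ht
      exact le_of_lt (g1 z hz)
    · exact le_of_eq ht
  · have e1 : #(⋃ z, T2 z) ≤ ν := by
      calc #(⋃ z, T2 z) ≤ Cardinal.sum (fun z => #(T2 z)) := Cardinal.mk_iUnion_le_sum_mk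
        _ ≤ #B * iSup (fun z => #(T2 z)) := Cardinal.sum_le_mk_mul_iSup _
        _ ≤ ν * ν := mul_le_mul' hB (ciSup_le' g2)
        _ = ν := Cardinal.mul_eq_self hν
    refine (Cardinal.mk_union_le _ _).trans (Cardinal.add_le_of_le hν
      ((Cardinal.mk_union_le _ _).trans (Cardinal.add_le_of_le hν h2 e1)) ?_)
    rw [Cardinal.mk_singleton]
    exact Cardinal.one_le_aleph0.trans hν
  · rintro t (ht | ht)
    · refine ((hClosed_union h3 (hClosed_iUnion T2 g3)) t ht).trans (iSup_le ?_)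
      rintro ⟨v, hv1, hv2⟩
      exact le_iSup (fun v : {v : W // v ∈ (T1 ∪ ⋃ z, T2 z) ∪ {w} ∧ v < t} => a v)
        ⟨v, Or.inl hv1, hv2⟩
    · obtain rfl : t = w := ht
      intro z hz
      have h5 := g4 ⟨z, hz⟩
      refine (?_ : hsub a (T2 ⟨z, hz⟩) ≤ _) h5
      refine iSup_le ?_
      rintro ⟨v, hv⟩
      exact le_iSup (fun v : {v : W // v ∈ (T1 ∪ ⋃ z, T2 z) ∪ {t} ∧ v < t} => a v)
        ⟨v, Or.inl (Or.inr (Set.mem_iUnion.2 ⟨_, hv⟩)), g1 _ hv⟩
  · refine Submodule.add_mem _ ?_ ?_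
    · exact hsub_mono (fun t ht => Or.inl (Or.inl ht)) h4
    · exact (le_iSup (fun v : ((T1 ∪ ⋃ z, T2 z) ∪ {w} : Set W) => a v) ⟨w, Or.inr rfl⟩) hb

theorem hsub_filt {A : Cls R} (hA : IsoClosed A) (hF : Monotone F)
    (ha : ∀ w, F w = (⨆ v : Set.Iio w, F v) ⊔ a w)
    (hAF : ∀ w, A (quo (F w) (⨆ v : Set.Iio w, F v))) {T : Set W} (hT : HClosed F a T) :
    Filt A (hsub a T) := by
  have haF : ∀ w, a w ≤ F w := fun w => by rw [ha w]; exact le_sup_right
  let G : T → Submodule R M := fun w => ⨆ v : {v : W // v ∈ T ∧ v ≤ w}, a v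
  have hG : Monotone G := by
    intro v w hvw
    refine iSup_le ?_
    rintro ⟨t, ht1, ht2⟩
    exact le_iSup (fun v : {v : W // v ∈ T ∧ v ≤ w} => a v) ⟨t, ht1, ht2.trans hvw⟩
  have htop : (⨆ w, G w) = hsub a T := by
    apply le_antisymm
    · refine iSup_le fun w => iSup_le ?_
      rintro ⟨t, ht1, ht2⟩
      exact le_iSup (fun v : T => a v) ⟨t, ht1⟩
    · refine iSup_le ?_
      rintro ⟨t, ht⟩
      exact (le_iSup (fun v : {v : W // v ∈ T ∧ v ≤ t} => a v) ⟨t, ht, le_rfl⟩).trans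
        (le_iSup G ⟨t, ht⟩)
  have hlt : ∀ w : T, (⨆ v : Set.Iio w, G v) = ⨆ v : {v : W // v ∈ T ∧ v < w}, a v := by
    intro w
    apply le_antisymm
    · refine iSup_le ?_
      rintro ⟨v, hv⟩
      refine iSup_le ?_
      rintro ⟨t, ht1, ht2⟩
      exact le_iSup (fun v : {v : W // v ∈ T ∧ v < w} => a v) ⟨t, ht1, lt_of_le_of_lt ht2 hv⟩
    · refine iSup_le ?_
      rintro ⟨t, ht1, ht2⟩
      exact (le_iSup (fun v : {v : W // v ∈ T ∧ v ≤ t} => a v) ⟨t, ht1, le_rfl⟩).trans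
        (le_iSup (fun v : Set.Iio w => G v) ⟨⟨t, ht1⟩, ht2⟩)
  have hle : ∀ w : T, (⨆ v : Set.Iio w, G v) ≤ ⨆ v : Set.Iio (w : W), F v := by
    intro w
    rw [hlt]
    refine iSup_le ?_
    rintro ⟨t, ht1, ht2⟩
    exact (haF t).trans (le_iSup (fun v : Set.Iio (w : W) => F v) ⟨t, ht2⟩)
  have hGw : ∀ w : T, G w = (⨆ v : Set.Iio w, G v) ⊔ a w := by
    intro w
    rw [hlt]
    apply le_antisymm
    · refine iSup_le ?_
      rintro ⟨t, ht1, ht2⟩
      rcases ht2.eq_or_lt with rfl | h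
      · exact le_sup_right
      · exact (le_iSup (fun v : {v : W // v ∈ T ∧ v < w} => a v) ⟨t, ht1, h⟩).trans le_sup_left
    · refine sup_le (iSup_le ?_) ?_
      · rintro ⟨t, ht1, ht2⟩
        exact le_iSup (fun v : {v : W // v ∈ T ∧ v ≤ w} => a v) ⟨t, ht1, ht2.le⟩
      · exact le_iSup (fun v : {v : W // v ∈ T ∧ v ≤ w} => a v) ⟨w, w.2, le_rfl⟩
  rw [← htop]
  refine filt_sub hA G hG fun w => ?_
  -- the factor
  have hGF : G w ≤ F w := by
    rw [hGw]
    exact sup_le ((hle w).trans (iSup_le fun v => hF (le_of_lt v.2))) (haF w)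
  obtain ⟨e⟩ := quo_equiv (S := G w) (T := ⨆ v : Set.Iio w, G v)
    (P := F w ⧸ (⨆ v : Set.Iio (w : W), F v).submoduleOf (F w))
    ((Submodule.mkQ _) ∘ₗ Submodule.inclusion hGF) (by
      intro z
      obtain ⟨⟨z, hz⟩, rfl⟩ := Submodule.mkQ_surjective _ z
      have hz' := hz
      rw [ha] at hz'
      obtain ⟨y, hy, b, hb, rfl⟩ := Submodule.mem_sup.1 hz'
      refine ⟨⟨b, ?_⟩, ?_⟩
      · rw [hGw]; exact Submodule.mem_sup_right hb
      · rw [LinearMap.comp_apply, Submodule.mkQ_apply, Submodule.mkQ_apply, Submodule.Quotient.eq]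
        have h5 := Submodule.neg_mem _ hy
        show b - (y + b) ∈ (⨆ v : Set.Iio (w : W), F v)
        have h6 : b - (y + b) = -y := by abel
        rw [h6]
        exact h5) (by
      rintro ⟨x, hx⟩
      rw [LinearMap.comp_apply, Submodule.mkQ_apply, Submodule.Quotient.mk_eq_zero]
      constructor
      · intro h
        have h' : x ∈ ⨆ v : Set.Iio (w : W), F v := h
        rw [hGw] at hx
        obtain ⟨y, hy, b, hb, rfl⟩ := Submodule.mem_sup.1 hx
        have h6 : b ∈ ⨆ v : Set.Iio (w : W), F v := by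
          have := Submodule.sub_mem _ h' (hle w hy)
          simpa using this
        have h7 := hT w w.2 ⟨hb, h6⟩
        rw [← hlt] at h7
        exact Submodule.add_mem _ hy h7
      · intro h
        exact hle w h)
  exact hA _ _ ⟨e.symm⟩ (hAF w)

end Hill

theorem hill {A : Cls R} (hA : IsoClosed A) {ν : Cardinal.{u}} (hν : ℵ₀ ≤ ν) (hR : #R ≤ ν)
    (hAν : ∀ N, A N → #N ≤ ν) (hM : Filt A M) (Z : Set M) (hZ : #Z ≤ ν) :
    ∃ H : Submodule R M, Z ⊆ H ∧ Filt A H ∧ #H ≤ ν := by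
  obtain ⟨W, i1, i2, F, hF, htop, hAF⟩ := hM
  have hlt : ∀ w, (⨆ v : Set.Iio w, F v) ≤ F w := fun w => iSup_le fun v => hF (le_of_lt v.2)
  have hex : ∀ w, ∃ a : Submodule R M, F w = (⨆ v : Set.Iio w, F v) ⊔ a ∧ #a ≤ ν := by
    intro w
    let sec : (F w ⧸ (⨆ v : Set.Iio w, F v).submoduleOf (F w)) → F w := Quotient.out
    have hsec : ∀ q, Submodule.Quotient.mk (sec q) = q := fun q => Quotient.out_eq q
    refine ⟨Submodule.span R (Set.range fun q => (sec q : M)), ?_, ?_⟩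
    · apply le_antisymm
      · intro x hx
        have h1 := hsec (Submodule.Quotient.mk ⟨x, hx⟩)
        rw [Submodule.Quotient.eq] at h1
        have h2 : ((sec (Submodule.Quotient.mk ⟨x, hx⟩) : F w) : M) - x ∈
            (⨆ v : Set.Iio w, F v) := h1
        have h3 : ((sec (Submodule.Quotient.mk ⟨x, hx⟩) : F w) : M) ∈
            Submodule.span R (Set.range fun q => (sec q : M)) :=
          Submodule.subset_span ⟨_, rfl⟩
        have h4 := Submodule.sub_mem _ (Submodule.mem_sup_right (S := ⨆ v : Set.Iio w, F v) h3)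
          (Submodule.mem_sup_left (T := Submodule.span R (Set.range fun q => (sec q : M))) h2)
        simpa using h4
      · refine sup_le (hlt w) (Submodule.span_le.2 ?_)
        rintro _ ⟨q, rfl⟩
        exact (sec q).2
    · exact mk_span_le _ hν (Cardinal.mk_range_le.trans (hAν _ (hAF w))) hR
  choose a ha hac using hex
  have hz : ∀ z : M, ∃ T : Set W, #T ≤ ν ∧ HClosed F a T ∧ z ∈ hsub a T := by
    intro z
    have h1 : z ∈ (⨆ w, F w) := by rw [htop]; trivial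
    rcases isEmpty_or_nonempty W with h | h
    · rw [iSup_of_empty] at h1
      have : z = 0 := h1
      subst this
      exact ⟨∅, by simp, hClosed_empty, Submodule.zero_mem _⟩
    · rw [Submodule.mem_iSup_of_directed _ hF.directed_le] at h1
      obtain ⟨w, hw⟩ := h1
      obtain ⟨T, -, h3, h4, h5⟩ := exists_closed hF hν ha hac w z hw
      exact ⟨T, h3, h4, h5⟩
  choose T g1 g2 g3 using hz
  have hTc : #(⋃ z : Z, T z) ≤ ν := by
    calc #(⋃ z : Z, T z) ≤ Cardinal.sum (fun z : Z => #(T z)) := Cardinal.mk_iUnion_le_sum_mk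
      _ ≤ #Z * iSup (fun z : Z => #(T z)) := Cardinal.sum_le_mk_mul_iSup _
      _ ≤ ν * ν := mul_le_mul' hZ (ciSup_le' fun z => g1 z)
      _ = ν := Cardinal.mul_eq_self hν
  refine ⟨hsub a (⋃ z : Z, T z), ?_, ?_, ?_⟩
  · intro z hz
    exact hsub_mono (Set.subset_iUnion (fun z : Z => T z) ⟨z, hz⟩) (g3 z)
  · exact hsub_filt hA hF ha hAF (hClosed_iUnion (fun z : Z => T z) fun z => g2 z)
  · have h1 : hsub a (⋃ z : Z, T z) =
        Submodule.span R (⋃ w : (⋃ z : Z, T z : Set W), (a w : Set M)) := by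
      unfold hsub
      rw [Submodule.span_iUnion]
      congr 1
      funext w
      rw [Submodule.span_eq]
    rw [h1]
    refine mk_span_le _ hν ?_ hR
    calc #(⋃ w : (⋃ z : Z, T z : Set W), (a w : Set M))
        ≤ Cardinal.sum (fun w : (⋃ z : Z, T z : Set W) => #(a w)) := Cardinal.mk_iUnion_le_sum_mk
      _ ≤ #(⋃ z : Z, T z : Set W) * iSup (fun w : (⋃ z : Z, T z : Set W) => #(a w)) :=
        Cardinal.sum_le_mk_mul_iSup _
      _ ≤ ν * ν := mul_le_mul' hTc (ciSup_le' fun w => hac w)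
      _ = ν := Cardinal.mul_eq_self hν

end Pool.Agent.W440.DL
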