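import Pool.Agent.W440.DLFilt

set_option autoImplicit false

namespace Pool.Agent.W440.DL

open Cardinal

universe u

variable {R : Type u} [Ring R]

theorem hasFiltration_of_filt {A : Cls R} {M : ModuleCat.{u} R} (h : Filt A M) :
    HasFiltration A M := by
  obtain ⟨W, i1, i2, F, hmono, htop, hA⟩ := h
  let ty : W → Ordinal.{u} := fun w => Ordinal.typein (α := W) (· < ·) w
  have ty_lt : ∀ {v w : W}, ty v < ty w ↔ v < w := fun {v w} => Ordinal.typein_lt_typein _
  have ty_le : ∀ {v w : W}, ty v ≤ ty w ↔ v ≤ w := fun {v w} => by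
    rw [← not_lt, ty_lt, not_lt]
  let F' : Ordinal.{u} → Submodule R M := fun α => ⨆ w : {w : W // ty w < α}, F w
  have hF'mono : Monotone F' := by
    intro α β hαβ
    exact iSup_le fun w => le_iSup (fun w : {w : W // ty w < β} => F w) ⟨w, w.2.trans_le hαβ⟩
  have hsucc : ∀ w : W, F' (Order.succ (ty w)) = F w := by
    intro w
    apply le_antisymm
    · refine iSup_le ?_
      rintro ⟨v, hv⟩
      exact hmono (ty_le.1 (Order.lt_succ_iff.1 hv))
    · exact le_iSup (fun v : {v : W // ty v < Order.succ (ty w)} => F v)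
        ⟨w, Order.lt_succ _⟩
  have hlt : ∀ w : W, F' (ty w) = ⨆ v : Set.Iio w, F v := by
    intro w
    apply le_antisymm
    · refine iSup_le ?_
      rintro ⟨v, hv⟩
      exact le_iSup (fun v : Set.Iio w => F v) ⟨v, ty_lt.1 hv⟩
    · refine iSup_le ?_
      rintro ⟨v, hv⟩
      exact le_iSup (fun v : {v : W // ty v < ty w} => F v) ⟨v, ty_lt.2 hv⟩
  refine ⟨Ordinal.type (α := W) (· < ·), F', ?_, ?_, ?_, ?_, ?_⟩
  · rw [eq_bot_iff]
    refine iSup_le ?_
    rintro ⟨v, hv⟩
    exact absurd hv (not_lt.2 (zero_le))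
  · rw [eq_top_iff, ← htop]
    exact iSup_le fun w => le_iSup (fun v : {v : W // ty v < _} => F v)
      ⟨w, Ordinal.typein_lt_type _ _⟩
  · intro α _
    exact hF'mono (Order.le_succ α)
  · intro α hα hlim
    ext x
    simp only [SetLike.mem_coe, Set.mem_iUnion]
    constructor
    · intro hx
      have h0 : Nonempty {w : W // ty w < α} := by
        have h1 : (0 : Ordinal) < Ordinal.type (α := W) (· < ·) := by
          refine lt_of_lt_of_le ?_ hα
          exact pos_iff_ne_zero.2 hlim.ne_bot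
        obtain ⟨w, hw⟩ := Ordinal.typein_surj (α := W) (· < ·) h1
        refine ⟨w, ?_⟩
        show ty w < α
        have : ty w = 0 := hw
        rw [this]
        exact pos_iff_ne_zero.2 hlim.ne_bot
      have hx' : x ∈ ⨆ w : {w : W // ty w < α}, F w := hx
      rw [Submodule.mem_iSup_of_directed] at hx'
      · obtain ⟨⟨w, hw⟩, hxw⟩ := hx'
        refine ⟨⟨Order.succ (ty w), hlim.succ_lt hw⟩, ?_⟩
        show x ∈ F' (Order.succ (ty w))
        rw [hsucc]
        exact hxw
      · intro a b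
        rcases le_total a.1 b.1 with h | h
        · exact ⟨b, hmono h, le_rfl⟩
        · exact ⟨a, le_rfl, hmono h⟩
    · rintro ⟨⟨β, hβ⟩, hx⟩
      exact hF'mono (le_of_lt hβ) hx
  · intro α hα
    obtain ⟨w, hw⟩ := Ordinal.typein_surj (α := W) (· < ·) hα
    have hw' : ty w = α := hw
    subst hw'
    rw [hsucc, hlt]
    exact hA w

theorem filt_of_hasFiltration {A : Cls R} {M : ModuleCat.{u} R} (h : HasFiltration A M) :
    Filt A M := by
  obtain ⟨σ, F, h0, htop, hs, hl, hA⟩ := h
  let ty : σ.ToType → Ordinal.{u} := fun w => (Ordinal.ToType.mk.symm w : Set.Iio σ)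
  have ty_lt : ∀ {v w : σ.ToType}, ty v < ty w ↔ v < w := fun {v w} => by
    show ((Ordinal.ToType.mk.symm v : Set.Iio σ) : Ordinal) < (Ordinal.ToType.mk.symm w : Set.Iio σ)
      ↔ _
    rw [Subtype.coe_lt_coe, OrderIso.lt_iff_lt]
  have ty_le : ∀ {v w : σ.ToType}, ty v ≤ ty w ↔ v ≤ w := fun {v w} => by
    rw [← not_lt, ty_lt, not_lt]
  have ty_σ : ∀ w, ty w < σ := fun w => (Ordinal.ToType.mk.symm w : Set.Iio σ).2
  have ty_surj : ∀ α < σ, ∃ w, ty w = α := fun α hα => ⟨Ordinal.ToType.mk ⟨α, hα⟩, by simp [ty]⟩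
  have hmono : ∀ β ≤ σ, ∀ α ≤ β, F α ≤ F β := by
    intro β
    induction β using Ordinal.limitRecOn with
    | zero =>
      intro _ α hα
      rw [nonpos_iff_eq_zero.1 hα]
    | add_one γ ih =>
      rw [← Order.succ_eq_add_one]
      intro hγ α hα
      rcases hα.eq_or_lt with rfl | hlt
      · exact le_rfl
      · have hγ' : γ < σ := (Order.lt_succ γ).trans_le hγ
        exact (ih hγ'.le α (Order.lt_succ_iff.1 hlt)).trans (hs γ hγ')
    | limit β hβ ih =>
      intro hβσ α hα
      rcases hα.eq_or_lt with rfl | hlt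
      · exact le_rfl
      · intro x hx
        have := hl β hβσ hβ
        rw [← SetLike.mem_coe, this]
        exact Set.mem_iUnion.2 ⟨⟨α, hlt⟩, hx⟩
  have key : ∀ β ≤ σ, (⨆ w : {w : σ.ToType // ty w < β}, F (Order.succ (ty w))) = F β := by
    intro β hβ
    apply le_antisymm
    · refine iSup_le ?_
      rintro ⟨w, hw⟩
      exact hmono β hβ _ (Order.succ_le_of_lt hw)
    · rcases Ordinal.zero_or_succ_or_isSuccLimit β with rfl | ⟨γ, rfl⟩ | hlim
      · rw [h0]; exact bot_le
      · have hγ : γ < σ := (Order.lt_succ γ).trans_le hβ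
        obtain ⟨w, rfl⟩ := ty_surj γ hγ
        exact le_iSup (fun v : {v : σ.ToType // ty v < Order.succ (ty w)} =>
          F (Order.succ (ty v))) ⟨w, Order.lt_succ _⟩
      · intro x hx
        rw [← SetLike.mem_coe, hl β hβ hlim, Set.mem_iUnion] at hx
        obtain ⟨⟨γ, hγ⟩, hx⟩ := hx
        have hγ1 : γ < β := hγ
        have hγ' : γ < σ := hγ1.trans_le hβ
        obtain ⟨w, rfl⟩ := ty_surj γ hγ'
        exact (le_iSup (fun v : {v : σ.ToType // ty v < β} =>
          F (Order.succ (ty v))) ⟨w, hγ⟩) (hs _ hγ' hx)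
  refine ⟨σ.ToType, inferInstance, inferInstance, fun w => F (Order.succ (ty w)), ?_, ?_, ?_⟩
  · intro v w hvw
    exact hmono _ (Order.succ_le_of_lt (ty_σ w)) _ (Order.succ_le_succ (ty_le.2 hvw))
  · rw [eq_top_iff, ← htop, ← key σ le_rfl]
    exact iSup_le fun w => le_iSup (fun w => F (Order.succ (ty w))) w.1
  · intro w
    have h1 : (⨆ v : Set.Iio w, F (Order.succ (ty v))) = F (ty w) := by
      rw [← key (ty w) (ty_σ w).le]
      apply le_antisymm
      · refine iSup_le ?_
        rintro ⟨v, hv⟩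
        exact le_iSup (fun v : {v : σ.ToType // ty v < ty w} => F (Order.succ (ty v)))
          ⟨v, ty_lt.2 hv⟩
      · refine iSup_le ?_
        rintro ⟨v, hv⟩
        exact le_iSup (fun v : Set.Iio w => F (Order.succ (ty v))) ⟨v, ty_lt.1 hv⟩
    rw [h1]
    exact hA _ (ty_σ w)

end Pool.Agent.W440.DL
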