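import Pool.Agent.W440.DLClo
import Pool.Agent.W440.DLOrd

set_option autoImplicit false

namespace Pool.Agent.W440.DL

open Cardinal

universe u

variable {R : Type u} [Ring R]

theorem dirLim_equiv {C : Cls R} : IsoClosed (DirLim C) := by
  rintro M N ⟨e⟩ ⟨I, i1, i2, i3, i4, X, f, hf, hC, ⟨e'⟩⟩
  exact ⟨I, i1, i2, i3, i4, X, f, hf, hC, ⟨e'.trans e⟩⟩

/-- direct limits of modules in `C` of size at most `μ` -/
def SmL (C : Cls R) (μ : Cardinal.{u}) : Cls R := fun N => DirLim C N ∧ #N ≤ μ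

theorem SmL_iso {C : Cls R} {μ : Cardinal.{u}} : IsoClosed (SmL C μ) := by
  rintro M N ⟨e⟩ ⟨h1, h2⟩
  exact ⟨dirLim_equiv M N ⟨e⟩ h1, by rwa [← Cardinal.mk_congr e.toEquiv]⟩

theorem filt_single {A : Cls R} (hA : IsoClosed A) {Y : Type u} [AddCommGroup Y] [Module R Y]
    (h : A (ModuleCat.of R Y)) : Filt A Y := by
  refine ⟨PUnit, inferInstance, inferInstance, fun _ => ⊤, fun _ _ _ => le_rfl, by simp, ?_⟩
  intro w
  obtain ⟨e⟩ : Nonempty (((⊤ : Submodule R Y) ⧸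
      (⨆ v : Set.Iio w, (⊤ : Submodule R Y)).submoduleOf ⊤) ≃ₗ[R] Y) := by
    refine quo_equiv (Submodule.subtype _) (fun y => ⟨⟨y, trivial⟩, rfl⟩) ?_
    rintro ⟨x, hx⟩
    have : IsEmpty (Set.Iio w) := ⟨fun v => by
      have h1 : v.1 < w := v.2
      rw [Subsingleton.elim v.1 w] at h1
      exact lt_irrefl _ h1⟩
    rw [iSup_of_empty]
    exact Iff.rfl
  exact hA _ _ ⟨e.symm⟩ h

variable {I : Type u} [PartialOrder I]

theorem rangeSup_iUnion {S : Sys R I} {Y : Type u} [AddCommGroup Y] [Module R Y]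
    {g : ∀ i, S.X i →ₗ[R] Y} {W : Type u} (J : W → Set I) :
    (⨆ w, rangeSup g (J w)) = rangeSup g (⋃ w, J w) := by
  apply le_antisymm
  · exact iSup_le fun w => rangeSup_mono (Set.subset_iUnion J w)
  · refine iSup_le ?_
    rintro ⟨j, hj⟩
    obtain ⟨w, hw⟩ := Set.mem_iUnion.1 hj
    exact (le_iSup (fun j : J w => LinearMap.range (g j)) ⟨j, hw⟩).trans
      (le_iSup (fun w => rangeSup g (J w)) w)

theorem card_lim {S : Sys R I} {Y : Type u} [AddCommGroup Y] [Module R Y]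
    {g : ∀ i, S.X i →ₗ[R] Y} (H : IsLim S Y g) {μ : Cardinal.{u}} (hμ : ℵ₀ ≤ μ) (hI : #I ≤ μ)
    (hX : ∀ i, #(S.X i) ≤ μ) : #Y ≤ μ := by
  have h1 : Function.Surjective (fun p : Σ i, S.X i => g p.1 p.2) := by
    intro y
    obtain ⟨i, x, hx⟩ := H.surj y
    exact ⟨⟨i, x⟩, hx⟩
  calc #Y ≤ #(Σ i, S.X i) := Cardinal.mk_le_of_surjective h1
    _ = Cardinal.sum (fun i => #(S.X i)) := Cardinal.mk_sigma _
    _ ≤ #I * iSup (fun i => #(S.X i)) := Cardinal.sum_le_mk_mul_iSup _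
    _ ≤ μ * μ := mul_le_mul' hI (ciSup_le' hX)
    _ = μ := Cardinal.mul_eq_self hμ

theorem thmA {C : Cls R} {K : Type u} (hK : ∀ M, C M → #M ≤ #K) {μ : Cardinal.{u}}
    (h1 : #(TT R K) ≤ μ) (h2 : #K ≤ μ) (h3 : ℵ₀ ≤ μ) (c : Cardinal.{u}) :
    ∀ (Y : Type u) [AddCommGroup Y] [Module R Y], LimC C c Y → Filt (SmL C μ) Y := by
  classical
  refine WellFoundedLT.induction (motive := fun c => ∀ (Y : Type u) [AddCommGroup Y] [Module R Y],
    LimC C c Y → Filt (SmL C μ) Y) c ?_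
  intro c ih Y _ _ hY
  obtain ⟨I, i1, i2, i3, S, hc, hC, g, H⟩ := hY
  rcases le_or_gt #I μ with hI | hI
  · apply filt_single SmL_iso
    refine ⟨dirLim_of_limC (Y := ModuleCat.of R Y) ⟨I, i1, i2, i3, S, hc, hC, g, H⟩, ?_⟩
    exact card_lim H h3 hI (fun i => (hK _ (hC i)).trans h2)
  · have he : ∀ i, Nonempty (S.X i ↪ K) := fun i => by
      rw [← Cardinal.le_def]; exact hK _ (hC i)
    let e : ∀ i, S.X i ↪ K := fun i => Classical.choice (he i)
    choose ub hub1 hub2 using fun i j : I => exists_ge_ge i j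
    let hf : I → TT R K → I := fun j t =>
      if h : ∃ i, ∃ hji : j ≤ i, typ S e hji = t then h.choose else j
    have good : ∀ J : Set I, J.Nonempty → Clo ub hf J → Good S J := by
      intro J hne hJ
      refine ⟨hne, fun j hj k hk => ⟨ub j k, hJ.ub j hj k hk, hub1 j k, hub2 j k⟩, ?_⟩
      intro j hj i hji
      have hex : ∃ i', ∃ hji' : j ≤ i', typ S e hji' = typ S e hji := ⟨i, hji, rfl⟩
      have h4 : hf j (typ S e hji) = hex.choose := by
        simp only [hf]; rw [dif_pos hex]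
      have h5 := hex.choose_spec
      rw [← h4] at h5
      obtain ⟨h6, h7⟩ := h5
      exact ⟨hf j (typ S e hji), hJ.hf j hj _, h6, typ_iso S e hji h6 h7.symm⟩
    have hW : #((#I).ord.ToType) = #I := Cardinal.mk_ord_toType _
    obtain ⟨w0⟩ := Cardinal.eq.1 hW
    let W := (#I).ord.ToType
    let J : W → Set I := fun w => cl ub hf (w0 '' Set.Iic w)
    have Jmono : Monotone J := fun v w hvw => cl_mono (Set.image_mono (Set.Iic_subset_Iic.2 hvw))
    have Jmem : ∀ w, w0 w ∈ J w := fun w => subset_cl _ ⟨w, Set.mem_Iic.2 le_rfl, rfl⟩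
    have Jgood : ∀ w, Good S (J w) := fun w => good _ ⟨_, Jmem w⟩ (clo_cl _)
    have hI0 : ℵ₀ ≤ #I := h3.trans hI.le
    have Jcard : ∀ w, max #(J w) ℵ₀ < #I := by
      intro w
      have h4 : #(w0 '' Set.Iic w) < #I := by
        refine lt_of_le_of_lt Cardinal.mk_image_le ?_
        rw [← Set.Iio_insert]
        refine lt_of_le_of_lt Cardinal.mk_insert_le ?_
        exact Cardinal.add_lt_of_lt hI0 (Cardinal.mk_Iio_toType_ord_lt w)
          (Cardinal.one_lt_aleph0.trans_le hI0)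
      have h5 := mk_cl_le (ub := ub) (hf := hf) (w0 '' Set.Iic w)
      refine max_lt (lt_of_le_of_lt h5 ?_) (lt_of_le_of_lt h3 hI)
      exact max_lt (max_lt h4 (lt_of_le_of_lt h1 hI)) (lt_of_le_of_lt h3 hI)
    refine filt_concat SmL_iso (W := W) (fun w => rangeSup g (J w))
      (fun v w hvw => rangeSup_mono (Jmono hvw)) ?_ ?_
    · rw [rangeSup_iUnion]
      have : (⋃ w, J w) = Set.univ := by
        rw [Set.eq_univ_iff_forall]
        intro i
        refine Set.mem_iUnion.2 ⟨w0.symm i, ?_⟩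
        have := Jmem (w0.symm i)
        rwa [w0.apply_symm_apply] at this
      rw [this, rangeSup_univ H]
    · intro w
      apply ih (max #(J w) ℵ₀) (lt_of_lt_of_le (Jcard w) hc)
      have h4 : (⨆ v : Set.Iio w, rangeSup g (J v)) = rangeSup g (⋃ v : Set.Iio w, J v) :=
        rangeSup_iUnion (fun v : Set.Iio w => J v)
      rcases isEmpty_or_nonempty (Set.Iio w) with hw | hw
      · exact limC_rel_bot hC H (Jgood w) (by rw [iSup_of_empty])
      · rw [h4]
        refine limC_rel hC H ?_ ?_ (Jgood w)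
        · exact Set.iUnion_subset fun v => Jmono (le_of_lt v.2)
        · obtain ⟨v0⟩ := hw
          refine good _ ⟨w0 v0, Set.mem_iUnion.2 ⟨v0, Jmem v0⟩⟩ ⟨?_, ?_⟩
          · intro j hj k hk
            obtain ⟨⟨v1, hv1⟩, hj⟩ := Set.mem_iUnion.1 hj
            obtain ⟨⟨v2, hv2⟩, hk⟩ := Set.mem_iUnion.1 hk
            refine Set.mem_iUnion.2 ⟨⟨max v1 v2, Set.mem_Iio.2 (max_lt hv1 hv2)⟩, ?_⟩
            exact (clo_cl _).ub j (Jmono (le_max_left v1 v2) hj) k (Jmono (le_max_right v1 v2) hk)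
          · intro j hj t
            obtain ⟨v1, hj⟩ := Set.mem_iUnion.1 hj
            exact Set.mem_iUnion.2 ⟨v1, (clo_cl _).hf j hj t⟩

end Pool.Agent.W440.DL
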