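import Pool.Agent.W440.DLFactor

set_option autoImplicit false

namespace Pool.Agent.W440.DL

open Cardinal

universe u

variable {R : Type u} [Ring R] {I : Type u} [PartialOrder I]

/-- A set of indices is good. -/
structure Good (S : Sys R I) (J : Set I) : Prop where
  ne : J.Nonempty
  dir : ∀ j ∈ J, ∀ k ∈ J, ∃ l ∈ J, j ≤ l ∧ k ≤ l
  refl : ∀ j ∈ J, ∀ i, ∀ h : j ≤ i, ∃ i' ∈ J, ∃ h' : j ≤ i', ∃ ψ : S.X i ≃ₗ[R] S.X i',
    ∀ x : S.X j, ψ (S.f h x) = S.f h' x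

/-- The submodule generated by the images of the `g j`, `j ∈ J`. -/
def rangeSup {S : Sys R I} {Y : Type u} [AddCommGroup Y] [Module R Y]
    (g : ∀ i, S.X i →ₗ[R] Y) (J : Set I) : Submodule R Y :=
  ⨆ j : J, LinearMap.range (g j)

variable {S : Sys R I} {Y : Type u} [AddCommGroup Y] [Module R Y] {g : ∀ i, S.X i →ₗ[R] Y}

theorem mem_rangeSup (H : IsLim S Y g) {J : Set I} (hJ : Good S J) (y : Y) :
    y ∈ rangeSup g J ↔ ∃ j ∈ J, ∃ x, g j x = y := by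
  have : Nonempty J := hJ.ne.to_subtype
  unfold rangeSup
  rw [Submodule.mem_iSup_of_directed]
  · constructor
    · rintro ⟨j, x, hx⟩; exact ⟨j, j.2, x, hx⟩
    · rintro ⟨j, hj, x, hx⟩; exact ⟨⟨j, hj⟩, x, hx⟩
  · intro j k
    obtain ⟨l, hl, h1, h2⟩ := hJ.dir j j.2 k k.2
    refine ⟨⟨l, hl⟩, ?_, ?_⟩
    · rintro _ ⟨x, rfl⟩; exact ⟨S.f h1 x, H.comp h1 x⟩
    · rintro _ ⟨x, rfl⟩; exact ⟨S.f h2 x, H.comp h2 x⟩

theorem mem_rangeSup_of_mem {J : Set I} {j : I} (hj : j ∈ J) (x : S.X j) :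
    g j x ∈ rangeSup g J :=
  (le_iSup (fun j : J => LinearMap.range (g j)) ⟨j, hj⟩) ⟨x, rfl⟩

theorem rangeSup_mono {J K : Set I} (h : J ⊆ K) : rangeSup g J ≤ rangeSup g K := by
  unfold rangeSup
  exact iSup_le fun j => le_iSup (fun j : K => LinearMap.range (g j)) ⟨j, h j.2⟩

theorem rangeSup_univ (H : IsLim S Y g) : rangeSup g (Set.univ : Set I) = ⊤ := by
  rw [eq_top_iff]
  rintro y -
  obtain ⟨i, x, rfl⟩ := H.surj y
  exact mem_rangeSup_of_mem (Set.mem_univ i) x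

/-- The system restricted to a subset. -/
def Sys.restrict (S : Sys R I) (J : Set I) : Sys R J where
  X j := S.X j
  f {i j} h := S.f (i := (i : I)) (j := (j : I)) h
  map_self i x := S.map_self i x
  map_map h1 h2 x := S.map_map (i := _) (j := _) (k := _) h1 h2 x

/-- restricted maps -/
def restrictMap (g : ∀ i, S.X i →ₗ[R] Y) (J : Set I) (j : J) :
    (S.restrict J).X j →ₗ[R] rangeSup g J :=
  (g j).codRestrict (rangeSup g J) (fun x => mem_rangeSup_of_mem j.2 x)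

theorem isLim_restrict (H : IsLim S Y g) {J : Set I} (hJ : Good S J) :
    IsLim (S.restrict J) (rangeSup g J) (restrictMap g J) where
  comp {i j} h x := by
    apply Subtype.ext
    exact H.comp (i := (i : I)) (j := (j : I)) h x
  surj := by
    rintro ⟨y, hy⟩
    obtain ⟨j, hj, x, hx⟩ := (mem_rangeSup H hJ y).1 hy
    exact ⟨⟨j, hj⟩, x, Subtype.ext hx⟩
  ker := by
    rintro ⟨j, hj⟩ x hx
    have hx' : g j x = 0 := congrArg Subtype.val hx
    obtain ⟨k, hk, hk'⟩ := H.ker j x hx'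
    obtain ⟨i', hi', h', ψ, hψ⟩ := hJ.refl j hj k hk
    refine ⟨⟨i', hi'⟩, h', ?_⟩
    have h0 : S.f h' (x : S.X j) = 0 := by
      have h1 := hψ x
      rw [← h1]
      exact (congrArg ψ hk').trans (map_zero ψ)
    exact h0

theorem limC_rangeSup {C : Cls R} (hC : ∀ i, C (S.X i)) (H : IsLim S Y g) {J : Set I}
    (hJ : Good S J) : LimC C #J (rangeSup g J) := by
  have : Nonempty J := hJ.ne.to_subtype
  refine ⟨J, inferInstance, ⟨?_⟩, inferInstance, S.restrict J, le_rfl, fun j => hC j, _,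
    isLim_restrict H hJ⟩
  rintro ⟨j, hj⟩ ⟨k, hk⟩
  obtain ⟨l, hl, h1, h2⟩ := hJ.dir j hj k hk
  exact ⟨⟨l, hl⟩, h1, h2⟩

/-- pairs `j ≤ i` with `j ∈ J` -/
abbrev Prs (J : Set I) : Type u := {p : I × I // p.1 ∈ J ∧ p.1 ≤ p.2}

/-- The system of cokernels. -/
noncomputable def cokSys (S : Sys R I) (J : Set I) : Sys R (Prs J) where
  X p := ModuleCat.of R (S.X p.1.2 ⧸ LinearMap.range (S.f p.2.2))
  f {p q} h := Submodule.mapQ _ _ (S.f (i := p.1.2) (j := q.1.2) h.2) (by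
    rintro _ ⟨x, rfl⟩
    refine ⟨S.f (i := p.1.1) (j := q.1.1) h.1 x, ?_⟩
    rw [S.map_map, S.map_map])
  map_self p x := by
    obtain ⟨x, rfl⟩ := Submodule.Quotient.mk_surjective _ x
    rw [Submodule.mapQ_apply, S.map_self]
  map_map {p q r} h1 h2 x := by
    obtain ⟨x, rfl⟩ := Submodule.Quotient.mk_surjective _ x
    rw [Submodule.mapQ_apply, Submodule.mapQ_apply, Submodule.mapQ_apply, S.map_map]

theorem cokSys_f_mk (S : Sys R I) (J : Set I) {p q : Prs J} (h : p ≤ q) (x : S.X p.1.2) :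
    (cokSys S J).f h (Submodule.Quotient.mk x : S.X p.1.2 ⧸ LinearMap.range (S.f p.2.2)) =
      (Submodule.Quotient.mk (S.f (i := p.1.2) (j := q.1.2) h.2 x) :
        S.X q.1.2 ⧸ LinearMap.range (S.f q.2.2)) := rfl

theorem cokSys_surj (S : Sys R I) (J : Set I) {p : Prs J} (x : (cokSys S J).X p) :
    ∃ y : S.X p.1.2, (Submodule.Quotient.mk y : S.X p.1.2 ⧸ LinearMap.range (S.f p.2.2)) = x :=
  Submodule.Quotient.mk_surjective _ x

/-- The maps from the cokernels to `Y / Y_J`. -/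
noncomputable def cokMap (H : IsLim S Y g) (J : Set I) (p : Prs J) :
    (cokSys S J).X p →ₗ[R] (Y ⧸ rangeSup g J) :=
  Submodule.mapQ _ _ (g p.1.2) (by
    rintro _ ⟨x, rfl⟩
    show g p.1.2 _ ∈ rangeSup g J
    rw [H.comp]
    exact mem_rangeSup_of_mem p.2.1 x)

theorem cokMap_mk (H : IsLim S Y g) (J : Set I) (p : Prs J) (x : S.X p.1.2) :
    cokMap H J p (Submodule.Quotient.mk x : S.X p.1.2 ⧸ LinearMap.range (S.f p.2.2)) =
      Submodule.Quotient.mk (g p.1.2 x) := rfl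

theorem isLim_cok [IsDirectedOrder I] (H : IsLim S Y g) {J : Set I} (hJ : Good S J) :
    IsLim (cokSys S J) (Y ⧸ rangeSup g J) (cokMap H J) where
  comp {p q} h x := by
    obtain ⟨x, rfl⟩ := cokSys_surj S J x
    rw [cokSys_f_mk, cokMap_mk, cokMap_mk, H.comp]
  surj y := by
    obtain ⟨y, rfl⟩ := Submodule.Quotient.mk_surjective _ y
    obtain ⟨i, x, rfl⟩ := H.surj y
    obtain ⟨j, hj⟩ := hJ.ne
    obtain ⟨k, h1, h2⟩ := exists_ge_ge i j
    refine ⟨⟨(j, k), hj, h2⟩, (Submodule.Quotient.mk (S.f h1 x) :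
      S.X k ⧸ LinearMap.range (S.f h2)), ?_⟩
    refine (cokMap_mk H J ⟨(j, k), hj, h2⟩ (S.f h1 x)).trans ?_
    show Submodule.Quotient.mk (g k (S.f h1 x)) = _
    rw [H.comp]
  ker := by
    rintro ⟨⟨j, i⟩, hj, hji⟩ x hx
    obtain ⟨x, rfl⟩ := cokSys_surj S J x
    have hx' : g i x ∈ rangeSup g J := by
      rw [← Submodule.Quotient.mk_eq_zero]
      exact hx
    obtain ⟨k, hk, z, hz⟩ := (mem_rangeSup H hJ _).1 hx'
    obtain ⟨j', hj', h1, h2⟩ := hJ.dir j hj k hk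
    obtain ⟨i', h3, h4⟩ := exists_ge_ge i j'
    have h5 : g i' (S.f h3 x - S.f (h2.trans h4) z) = 0 := by
      rw [map_sub, H.comp, H.comp, hz, sub_self]
    obtain ⟨i'', h6, h7⟩ := H.ker i' _ h5
    refine ⟨⟨(j', i''), hj', h4.trans h6⟩, ⟨h1, h3.trans h6⟩, ?_⟩
    refine (cokSys_f_mk S J _ x).trans ?_
    refine (Submodule.Quotient.mk_eq_zero _).2 ?_
    rw [map_sub, S.map_map, S.map_map, sub_eq_zero] at h7
    refine ⟨S.f h2 z, ?_⟩
    show S.f (h4.trans h6) (S.f h2 z) = S.f (h3.trans h6) x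
    rw [S.map_map]
    exact h7.symm

theorem limC_quotient [IsDirectedOrder I] {C : Cls R} (hC : ∀ i, C (S.X i)) (H : IsLim S Y g)
    {J : Set I} (hJ : Good S J) : LimC C (max #I ℵ₀) (Y ⧸ rangeSup g J) := by
  have : Nonempty (Prs J) := by
    obtain ⟨j, hj⟩ := hJ.ne
    exact ⟨⟨(j, j), hj, le_rfl⟩⟩
  have : IsDirectedOrder (Prs J) := ⟨by
    rintro ⟨⟨j, i⟩, hj, hji⟩ ⟨⟨j', i'⟩, hj', hji'⟩
    obtain ⟨k, hk, h1, h2⟩ := hJ.dir j hj j' hj'
    obtain ⟨l, h3, h4⟩ := exists_ge_ge i i'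
    obtain ⟨m, h5, h6⟩ := exists_ge_ge k l
    exact ⟨⟨(k, m), hk, h5⟩, ⟨h1, h3.trans h6⟩, ⟨h2, h4.trans h6⟩⟩⟩
  refine (limC_of_factor (isLim_cok H hJ) ?_ : LimC C (max #(Prs J) ℵ₀) _).mono ?_
  · rintro ⟨⟨j, i⟩, hj, hji⟩
    obtain ⟨i', hi', h', ψ, hψ⟩ := hJ.refl j hj i hji
    obtain ⟨l, h1, h2⟩ := exists_ge_ge i i'
    refine ⟨⟨(i', l), hi', h2⟩, ⟨h', h1⟩, S.X l, hC l, ?_, ?_, ?_⟩
    · exact Submodule.liftQ _ (S.f h1 - S.f h2 ∘ₗ ψ.toLinearMap) (by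
        rintro _ ⟨x, rfl⟩
        simp only [LinearMap.mem_ker, LinearMap.sub_apply, LinearMap.comp_apply]
        show S.f h1 (S.f hji x) - S.f h2 (ψ (S.f hji x)) = 0
        rw [hψ, S.map_map, S.map_map, sub_self])
    · exact Submodule.mkQ _
    · intro x
      obtain ⟨x, rfl⟩ := cokSys_surj S J x
      show (Submodule.Quotient.mk (S.f h1 x - S.f h2 (ψ x)) : S.X l ⧸ LinearMap.range (S.f h2)) =
        Submodule.Quotient.mk (S.f h1 x)
      refine (Submodule.Quotient.eq _).2 ⟨-ψ x, ?_⟩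
      rw [map_neg]
      abel
  · refine max_le ?_ (le_max_right _ _)
    calc #(Prs J) ≤ #(I × I) := Cardinal.mk_le_of_injective Subtype.val_injective
      _ = #I * #I := by simp
      _ ≤ max (max #I #I) ℵ₀ := Cardinal.mul_le_max _ _
      _ = max #I ℵ₀ := by simp

end Pool.Agent.W440.DL
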