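import Pool.Agent.W440.DLQuot

set_option autoImplicit false

namespace Pool.Agent.W440.DL

open Cardinal

universe u

variable {R : Type u} [Ring R] {I : Type u} [PartialOrder I]
variable {S : Sys R I} {Y : Type u} [AddCommGroup Y] [Module R Y] {g : ∀ i, S.X i →ₗ[R] Y}

theorem mem_subOf {M : Type u} [AddCommGroup M] [Module R M] {S T : Submodule R M} (x : S) :
    x ∈ T.submoduleOf S ↔ (x : M) ∈ T := Iff.rfl

theorem good_restrict {J K : Set I} (hJK : J ⊆ K) (hJ : Good S J) :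
    Good (S.restrict K) (Subtype.val ⁻¹' J : Set K) where
  ne := by
    obtain ⟨j, hj⟩ := hJ.ne
    exact ⟨⟨j, hJK hj⟩, hj⟩
  dir := by
    rintro ⟨j, hj'⟩ hj ⟨k, hk'⟩ hk
    obtain ⟨l, hl, h1, h2⟩ := hJ.dir j hj k hk
    exact ⟨⟨l, hJK hl⟩, hl, h1, h2⟩
  refl := by
    rintro ⟨j, hj'⟩ hj ⟨i, hi'⟩ h
    obtain ⟨i', hi, h', ψ, hψ⟩ := hJ.refl j hj i h
    exact ⟨⟨i', hJK hi⟩, hi, h', ψ, hψ⟩

theorem rangeSup_restrict (H : IsLim S Y g) {J K : Set I} (hJK : J ⊆ K) (hJ : Good S J)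
    (hK : Good S K) :
    rangeSup (restrictMap g K) (Subtype.val ⁻¹' J : Set K) =
      (rangeSup g J).submoduleOf (rangeSup g K) := by
  ext ⟨y, hy⟩
  rw [mem_rangeSup (isLim_restrict H hK) (good_restrict hJK hJ), mem_subOf,
    mem_rangeSup H hJ]
  constructor
  · rintro ⟨⟨j, hj'⟩, hj, x, hx⟩
    exact ⟨j, hj, x, congrArg Subtype.val hx⟩
  · rintro ⟨j, hj, x, hx⟩
    exact ⟨⟨j, hJK hj⟩, hj, x, Subtype.ext hx⟩

theorem limC_rel {C : Cls R} (hC : ∀ i, C (S.X i)) (H : IsLim S Y g) {J K : Set I}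
    (hJK : J ⊆ K) (hJ : Good S J) (hK : Good S K) :
    LimC C (max #K ℵ₀) (quo (rangeSup g K) (rangeSup g J)) := by
  have : IsDirectedOrder K := ⟨by
    rintro ⟨j, hj⟩ ⟨k, hk⟩
    obtain ⟨l, hl, h1, h2⟩ := hK.dir j hj k hk
    exact ⟨⟨l, hl⟩, h1, h2⟩⟩
  have h := limC_quotient (C := C) (fun j : K => hC j) (isLim_restrict H hK)
    (good_restrict hJK hJ)
  rw [rangeSup_restrict H hJK hJ hK] at h
  exact h

theorem limC_rel_bot {C : Cls R} (hC : ∀ i, C (S.X i)) (H : IsLim S Y g) {K : Set I}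
    (hK : Good S K) {T : Submodule R Y} (hT : T = ⊥) :
    LimC C (max #K ℵ₀) (quo (rangeSup g K) T) := by
  subst hT
  have h1 : (⊥ : Submodule R Y).submoduleOf (rangeSup g K) = ⊥ := by
    ext x; simp [mem_subOf]
  refine ((limC_rangeSup hC H hK).mono (le_max_left _ _)).equiv ?_
  exact ((Submodule.quotEquivOfEqBot _ h1).symm)

end Pool.Agent.W440.DL
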