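import Pool.Agent.W440.DLDefs

set_option autoImplicit false

namespace Pool.Agent.W440.DL

open Cardinal

universe u

variable {R : Type u} [Ring R]

/-- A direct system. -/
structure Sys (R : Type u) [Ring R] (I : Type u) [Preorder I] where
  X : I → ModuleCat.{u} R
  f : ∀ {i j : I}, i ≤ j → X i →ₗ[R] X j
  map_self : ∀ (i : I) (x : X i), f (le_refl i) x = x
  map_map : ∀ {i j k : I} (hij : i ≤ j) (hjk : j ≤ k) (x : X i),
    f hjk (f hij x) = f (hij.trans hjk) x

/-- `Y` with the maps `g i` is a direct limit of the system. -/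
structure IsLim {I : Type u} [Preorder I] (S : Sys R I) (Y : Type u) [AddCommGroup Y] [Module R Y]
    (g : ∀ i, S.X i →ₗ[R] Y) : Prop where
  comp : ∀ {i j : I} (h : i ≤ j) (x : S.X i), g j (S.f h x) = g i x
  surj : ∀ y : Y, ∃ i, ∃ x : S.X i, g i x = y
  ker : ∀ (i : I) (x : S.X i), g i x = 0 → ∃ j, ∃ h : i ≤ j, S.f h x = 0

/-- `Y` is a direct limit of a system of modules from `C` of size at most `c`. -/
def LimC (C : Cls R) (c : Cardinal.{u}) (Y : Type u) [AddCommGroup Y] [Module R Y] : Prop :=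
  ∃ (I : Type u) (_ : PartialOrder I) (_ : IsDirectedOrder I) (_ : Nonempty I) (S : Sys R I),
    #I ≤ c ∧ (∀ i, C (S.X i)) ∧ ∃ g, IsLim S Y g

theorem LimC.mono {C : Cls R} {c d : Cardinal.{u}} (h : c ≤ d) {Y : Type u} [AddCommGroup Y]
    [Module R Y] (H : LimC C c Y) : LimC C d Y := by
  obtain ⟨I, i1, i2, i3, S, hc, hC, g, hg⟩ := H
  exact ⟨I, i1, i2, i3, S, hc.trans h, hC, g, hg⟩

theorem IsLim.equiv {I : Type u} [Preorder I] {S : Sys R I} {Y Z : Type u} [AddCommGroup Y]
    [Module R Y] [AddCommGroup Z] [Module R Z] {g : ∀ i, S.X i →ₗ[R] Y} (H : IsLim S Y g)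
    (e : Y ≃ₗ[R] Z) : IsLim S Z (fun i => e.toLinearMap ∘ₗ g i) where
  comp h x := by simp [H.comp h x]
  surj z := by
    obtain ⟨i, x, hx⟩ := H.surj (e.symm z)
    exact ⟨i, x, by simp [hx]⟩
  ker i x hx := by
    apply H.ker i x
    simpa using hx

theorem LimC.equiv {C : Cls R} {c : Cardinal.{u}} {Y Z : Type u} [AddCommGroup Y]
    [Module R Y] [AddCommGroup Z] [Module R Z] (e : Y ≃ₗ[R] Z) (H : LimC C c Y) : LimC C c Z := by
  obtain ⟨I, i1, i2, i3, S, hc, hC, g, hg⟩ := H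
  exact ⟨I, i1, i2, i3, S, hc, hC, _, hg.equiv e⟩

theorem dirLim_of_limC {C : Cls R} {c : Cardinal.{u}} {Y : ModuleCat.{u} R} (H : LimC C c Y) :
    DirLim C Y := by
  classical
  obtain ⟨I, i1, i2, i3, S, hc, hC, g, hg⟩ := H
  refine ⟨I, i1, i2, i3, Classical.decEq I, S.X, fun i j h => S.f h, ⟨?_, ?_⟩, hC, ⟨?_⟩⟩
  · intro i x; exact S.map_self i x
  · intro k j i hij hjk x; exact S.map_map hij hjk x
  · haveI : DirectedSystem (fun i => (S.X i : Type u)) fun i j h => S.f (i := i) (j := j) h :=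
      ⟨fun i x => S.map_self i x, fun k j i hij hjk x => S.map_map hij hjk x⟩
    letI : DecidableEq I := Classical.decEq I
    refine LinearEquiv.ofBijective
      (Module.DirectLimit.lift R I (fun i => (S.X i : Type u)) (fun i j h => S.f h) g
        (fun i j h x => hg.comp h x)) ⟨?_, ?_⟩
    · rw [injective_iff_map_eq_zero]
      intro z hz
      obtain ⟨i, x, rfl⟩ := Module.DirectLimit.exists_of z
      rw [Module.DirectLimit.lift_of] at hz
      obtain ⟨j, hij, hx⟩ := hg.ker i x hz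
      rw [← Module.DirectLimit.of_f (hij := hij), hx, map_zero]
    · intro y
      obtain ⟨i, x, hx⟩ := hg.surj y
      exact ⟨Module.DirectLimit.of R I _ _ i x, by rw [Module.DirectLimit.lift_of, hx]⟩

theorem limC_of_dirLim {C : Cls R} {Y : ModuleCat.{u} R} (H : DirLim C Y) :
    ∃ c : Cardinal.{u}, LimC C c Y := by
  obtain ⟨I, i1, i2, i3, i4, X, f, hf, hC, ⟨e⟩⟩ := H
  refine ⟨#I, I, i1, i2, i3, ⟨X, fun {i j} h => f i j h, ?_, ?_⟩, le_rfl, hC,
    fun i => e.toLinearMap ∘ₗ Module.DirectLimit.of R I (fun i => (X i : Type u)) f i, ?_, ?_, ?_⟩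
  · intro i x; exact hf.map_self x
  · intro i j k hij hjk x; exact hf.map_map hij hjk x
  · intro i j h x
    simp only [LinearMap.comp_apply]
    rw [Module.DirectLimit.of_f]
  · intro y
    obtain ⟨i, x, hx⟩ := Module.DirectLimit.exists_of (e.symm y)
    exact ⟨i, x, by simp [hx]⟩
  · intro i x hx
    have h0 : Module.DirectLimit.of R I (fun i => (X i : Type u)) f i x = 0 := by
      simpa using hx
    obtain ⟨j, hij, hj⟩ := Module.DirectLimit.of.zero_exact h0
    exact ⟨j, hij, hj⟩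

end Pool.Agent.W440.DL
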